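import Pool.Agent.H941.QK.Core
import Pool.Agent.H941.QH.Class

set_option autoImplicit false
set_option linter.unusedSectionVars false
set_option linter.unusedVariables false

/-! # The class of curves -/

namespace Pool.Agent.H941.QK

open MvPolynomial Pool.Agent.Helper748.MC Pool.Agent.Helper748.TP Pool.Agent.H941.TF
  Pool.Agent.H941.SC Pool.Agent.H941.NC Pool.Agent.H941.ND Pool.Agent.W574.SM
  Pool.Agent.W574.CN Pool.Agent.W574.MO Pool.Agent.W574.HS Pool.Agent.W574.LM
  Pool.Agent.H628R4.TP Pool.Agent.H941.QH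

/-- **Few bad points.** There is a product of `K` linear forms `l i`, where each line `l i = 0` has at
least `K + 4` different points on the curve `H = 0` and is not contained in it, which is locally in
the ideal of the partial derivatives of `H` at all singular points of `H = 0`, with the possible
exception of ordinary double points of `H` and of non-resonant quasi-homogeneous points of `f`. -/
def FewBad (f H : MvPolynomial (Fin 3) ℂ) : Prop :=
  ∃ (K : ℕ) (l : Fin K → MvPolynomial (Fin 3) ℂ),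
    (∀ i, (l i).IsHomogeneous 1 ∧ l i ≠ 0 ∧ (∃ z : Fin 3 → ℂ, eval z (l i) = 0 ∧ eval z H ≠ 0) ∧
      ManyPts (K + 4) (l i) H) ∧
    ∀ z : Fin 3 → ℂ, z ≠ 0 → eval z H = 0 → (∀ i, eval z (pderiv i H) = 0) →
      NodeAt H z ∨ QHAt f z ∨ JacAt (∏ i, l i) H z

/-- **The class of forms.** The curve `f = 0` is the union of the curves `H = 0` and `g j = 0` (the form
`H * ∏ g j` is squarefree, it divides `f`, and `f` divides a power of it; the multiplicities of `f` are
arbitrary), and `e = deg H ≥ 3`. The curve `H = 0` has few bad points (`FewBad`), or more generally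
its continuous sections of `O(3)` which are regular at the non-resonant quasi-homogeneous points of
`f` are cubic forms (`Cubic`).

Each `g j` is irreducible with at least `3 deg (g j) + 1` different points on the union `D j` of
`H = 0` and the curves `g l = 0`, `l < j` (then there is no condition on its singularities), or it
meets `D j` only transversally or in non-resonant quasi-homogeneous points of `f`, where
`deg (D j) ≥ 4` or `g j` is irreducible.

Finally `deg H ≥ 4` and all singular points of `H = 0` are ordinary double points, or the linear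
vector fields which annihilate `f` have trace `0`. -/
def CubicChain (f : MvPolynomial (Fin 3) ℂ) : Prop :=
  ∃ (r k e : ℕ) (n : Fin r → ℕ) (H : MvPolynomial (Fin 3) ℂ)
    (g : Fin r → MvPolynomial (Fin 3) ℂ),
    H.IsHomogeneous e ∧ (∀ j, (g j).IsHomogeneous (n j)) ∧ 3 ≤ e ∧
    Squarefree (H * ∏ j, g j) ∧ H * ∏ j, g j ∣ f ∧ f ∣ (H * ∏ j, g j) ^ k ∧
    (FewBad f H ∨ Cubic f H e) ∧
    ((4 ≤ e ∧ ∀ z : Fin 3 → ℂ, z ≠ 0 → eval z H = 0 → (∀ i, eval z (pderiv i H) = 0) →
      NodeAt H z) ∨ TrZero f) ∧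
    ∀ j, (Irreducible (g j) ∧
        ManyPts (3 * n j + 1) (g j) (H * ∏ l ∈ Finset.univ.filter (· < j), g l)) ∨
      ((4 ≤ e + ∑ l ∈ Finset.univ.filter (· < j), n l ∨ Irreducible (g j)) ∧
        MeetQH f (g j) (H * ∏ l ∈ Finset.univ.filter (· < j), g l))

theorem CubicChain.ne {f : MvPolynomial (Fin 3) ℂ} (hf : CubicChain f) : f ≠ 0 := by
  obtain ⟨r, k, e, n, H, g, hh, hg, he, hsq, hSf, hfS, -⟩ := hf
  rintro rfl
  exact pow_ne_zero k hsq.ne_zero (zero_dvd_iff.1 hfS)

theorem CubicChain.deg {d : ℕ} {f : MvPolynomial (Fin 3) ℂ} (hf : f.IsHomogeneous d)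
    (h : CubicChain f) : 0 < d := by
  have hf0 := h.ne
  obtain ⟨r, k, e, n, H, g, hh, hg, he, hsq, hSf, hfS, -⟩ := h
  have h1 := totalDegree_le_of_dvd_of_isDomain hSf hf0
  have hS : (H * ∏ j, g j).IsHomogeneous (e + ∑ j, n j) :=
    hh.mul (IsHomogeneous.prod _ _ _ fun j _ => hg j)
  rw [hS.totalDegree hsq.ne_zero, hf.totalDegree hf0] at h1
  omega

/-- These forms are not exact. -/
theorem not_exact {d : ℕ} {f : MvPolynomial (Fin 3) ℂ} (hf : f.IsHomogeneous d)
    (h : CubicChain f) : ¬ Exact d f (-3 / d) := by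
  classical
  have hd := h.deg hf
  obtain ⟨r, k, e, n, H, g, hh, hg, he, hsq, hSf, hfS, hstart, hfld, hchn⟩ := h
  have hS : (H * ∏ j, g j).IsHomogeneous (e + ∑ j, n j) :=
    hh.mul (IsHomogeneous.prod _ _ _ fun j _ => hg j)
  obtain ⟨W, hW, hWH⟩ := good_dir hh (by omega) (hsq.of_mul_left)
  -- the lines
  have hln : ∃ (K : ℕ) (l : Fin K → MvPolynomial (Fin 3) ℂ),
      (∀ i, (l i).IsHomogeneous 1 ∧ l i ≠ 0 ∧ (∃ z : Fin 3 → ℂ, eval z (l i) = 0 ∧
        eval z H ≠ 0) ∧ ManyPts (K + 4) (l i) H) ∧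
      ((∀ z : Fin 3 → ℂ, z ≠ 0 → eval z H = 0 → (∀ i, eval z (pderiv i H) = 0) →
        NodeAt H z ∨ QHAt f z ∨ JacAt (∏ i, l i) H z) ∨ Cubic f H e) := by
    rcases hstart with ⟨K, l, h1, h2⟩ | h
    · exact ⟨K, l, h1, Or.inl h2⟩
    · exact ⟨0, fun i => i.elim0, fun i => i.elim0, Or.inr h⟩
  obtain ⟨K, l, hl, hst⟩ := hln
  have hlne : ∏ i, l i ≠ 0 := Finset.prod_ne_zero_iff.2 fun i _ => (hl i).2.1
  choose R hR hRR using fun i => (hl i).2.2.2
  -- the points
  set J := {j : Fin r // ManyPts (3 * n j + 1) (g j)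
    (H * ∏ l ∈ Finset.univ.filter (· < j), g l)} with hJ
  have hJP : ∀ j : J, ∃ P : Fin (3 * n j.1 + 1) → Fin 3 → ℂ,
    (∀ b, P b ≠ 0 ∧ eval (P b) (g j.1) = 0 ∧
      eval (P b) (H * ∏ l ∈ Finset.univ.filter (· < j.1), g l) = 0) ∧
    ∀ b b', b ≠ b' → ∀ c : ℂ, P b ≠ c • P b' := fun j => j.2
  choose P hP hPP using hJP
  set ι := (Σ j : J, Fin (3 * n j.1 + 1)) ⊕ (Fin K × Fin (K + 4)) with hι
  set PP : ι → Fin 3 → ℂ := Sum.elim (fun x => P x.1 x.2) (fun x => R x.1 x.2) with hPPd
  obtain ⟨A, P', hA, hsep, hdeg, hAW, hAP, hP1, hPt⟩ := bert hS (by omega) hsq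
    (ι := ι) PP (by
      rintro (x | x)
      · exact (hP x.1 x.2).1
      · exact (hR x.1 x.2).1)
    (by
      rintro (x | x)
      · change eval (P x.1 x.2) _ = 0
        rw [map_mul, map_prod (eval _) g, Finset.prod_eq_zero (Finset.mem_univ x.1.1)
          (hP x.1 x.2).2.1, mul_zero]
      · change eval (R x.1 x.2) _ = 0
        rw [map_mul, (hR x.1 x.2).2.2, zero_mul]) (mul_ne_zero hW hlne)
  rw [map_mul] at hAW
  have hAl := right_ne_zero_of_mul hAW
  replace hAW := left_ne_zero_of_mul hAW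
  intro hE
  have hS0 := ev_top (lin_homog A hS) (by omega) hdeg
  have hcol : (fun i => ∑ j, A i j * (![0, 0, 1] : Fin 3 → ℂ) j) = fun i => A i 2 := by
    funext i
    rw [Fin.sum_univ_three]
    simp
  have hH0 : eval ![0, 0, 1] (lin A H) ≠ 0 := by
    intro h0
    apply hS0
    rw [map_mul, map_mul, h0, zero_mul]
  rw [map_mul, map_prod] at hsep hdeg
  -- the points in the new coordinates
  have hlin : ∀ (b : ι) (p : MvPolynomial (Fin 3) ℂ) (m : ℕ),
      p.IsHomogeneous m → eval (PP b) p = 0 →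
      eval ![P' b 0 / P' b 1, 1, P' b 2 / P' b 1] (lin A p) = 0 := by
    intro b p m hp h0
    have h1 : eval (P' b) (lin A p) = 0 := by
      rw [eval_lin, hAP b]
      exact h0
    have h2 := hP1 b
    have h3 : P' b = fun i => P' b 1 *
        (![P' b 0 / P' b 1, 1, P' b 2 / P' b 1] : Fin 3 → ℂ) i := by
      funext i
      fin_cases i
      · simp [mul_div_cancel₀ _ h2]
      · simp
      · simp [mul_div_cancel₀ _ h2]
    rw [h3, eval_smul_pt (lin_homog A hp)] at h1
    exact (mul_eq_zero.1 h1).resolve_left (pow_ne_zero _ h2)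
  have hgood : ∀ z : Fin 3 → ℂ, z ≠ 0 → eval z (lin A H) = 0 →
      (∀ i, eval z (pderiv i (lin A H)) = 0) → NodeAt H (fun i => ∑ j, A i j * z j) →
      NodeAt (lin A H) z ∧ eval z (pderiv 2 (pderiv 2 (lin A H))) ≠ 0 := by
    intro z hz h0 hs hn
    rw [eval_lin] at h0
    refine ⟨node_lin hA hn, ?_⟩
    have h1 := hWH _ hAW _ (lin_vec_ne hA hz) h0 (sing_lin hA hs) hn
    rw [eval_hf] at h1
    rw [eval_hess_lin]
    intro h2
    apply h1
    rw [← h2]
    refine Finset.sum_congr rfl fun i _ => Finset.sum_congr rfl fun j _ => ?_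
    ring
  have hprod : ∀ j : Fin r, lin A (H * ∏ l ∈ Finset.univ.filter (· < j), g l) =
      lin A H * ∏ l ∈ Finset.univ.filter (· < j), lin A (g l) := fun j => by
    rw [map_mul, map_prod]
  refine QK.core (F := lin A f) (H := lin A H) (g := fun j => lin A (g j)) (K := k)
    (nn := n) (lin_homog A hf) hd (lin_homog A hh) (fun j => lin_homog A (hg j)) (by omega)
    (by omega) ?_ ?_ ?_ ?_ hsep hdeg ?_ (exact_lin hE A (isUnit_iff_ne_zero.2 hA))
  · rw [← map_prod, ← map_mul]
    exact map_dvd (lin A) hSf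
  · rw [← map_prod, ← map_mul, ← map_pow]
    exact map_dvd (lin A) hfS
  · rcases hst with hpt | hcub
    · refine Or.inl ⟨K, fun i => lin A (l i), fun i => ⟨lin_homog A (hl i).1, ?_, ?_, ?_⟩,
        fun z hz h0 hs => ?_⟩
      · rw [eval_lin, hcol]
        rw [map_prod, Finset.prod_ne_zero_iff] at hAl
        exact hAl i (Finset.mem_univ i)
      · obtain ⟨z, hz1, hz2⟩ := (hl i).2.2.1
        have e1 : (fun i => ∑ j, A i j * (∑ k, A⁻¹ j k * z k)) = z := by
          have h1 : A.mulVec (A⁻¹.mulVec z) = z := by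
            rw [Matrix.mulVec_mulVec, Matrix.mul_nonsing_inv A (isUnit_iff_ne_zero.2 hA),
              Matrix.one_mulVec]
          exact h1
        refine ⟨fun j => ∑ k, A⁻¹ j k * z k, ?_, ?_⟩
        · rw [eval_lin, e1]
          exact hz1
        · rw [eval_lin, e1]
          exact hz2
      · refine ⟨Finset.univ.image fun b : Fin (K + 4) => P' (Sum.inr (i, b)) 0 /
          P' (Sum.inr (i, b)) 1, ?_, ?_⟩
        · rw [Finset.card_image_of_injective, Finset.card_univ, Fintype.card_fin]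
          · omega
          · intro b b' hbb
            by_contra hne
            exact hPt (Sum.inr (i, b)) (Sum.inr (i, b')) (hRR i b b' hne) hbb
        · intro t ht
          rw [Finset.mem_image] at ht
          obtain ⟨b, -, rfl⟩ := ht
          exact ⟨P' (Sum.inr (i, b)) 2 / P' (Sum.inr (i, b)) 1,
            hlin (Sum.inr (i, b)) _ _ (hl i).1 (hR i b).2.1,
            hlin (Sum.inr (i, b)) _ _ hh (hR i b).2.2⟩
      · have h0' := h0
        rw [eval_lin] at h0'
        rcases hpt _ (lin_vec_ne hA hz) h0' (sing_lin hA hs) with h | h | h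
        · exact Or.inl (hgood z hz h0 hs h)
        · exact Or.inr (Or.inl (qh_lin hA h))
        · have h3 := jac_lin hA h
          rw [map_prod] at h3
          exact Or.inr (Or.inr h3)
    · exact Or.inr fun P hP hc => cubic_lin hA hcub hH0 hP hc
  · rcases hfld with ⟨he4, hn⟩ | ht
    · refine Or.inl ⟨he4, fun z hz h0 hs => ?_⟩
      have h0' := h0
      rw [eval_lin] at h0'
      exact hgood z hz h0 hs (hn _ (lin_vec_ne hA hz) h0' (sing_lin hA hs))
    · exact Or.inr (tr_lin hA ht)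
  · intro j
    rcases hchn j with ⟨hirr, hj⟩ | ⟨hdg, hm⟩
    · refine Or.inl ⟨irr_lin hA hirr,
        Finset.univ.image fun b => P' (Sum.inl ⟨⟨j, hj⟩, b⟩) 0 / P' (Sum.inl ⟨⟨j, hj⟩, b⟩) 1,
        ?_, ?_⟩
      · rw [Finset.card_image_of_injective, Finset.card_univ, Fintype.card_fin]
        · exact Nat.lt_succ_self _
        · intro b b' hbb
          by_contra hne
          exact hPt (Sum.inl ⟨⟨j, hj⟩, b⟩) (Sum.inl ⟨⟨j, hj⟩, b'⟩) (hPP ⟨j, hj⟩ b b' hne) hbb
      · intro t ht
        rw [Finset.mem_image] at ht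
        obtain ⟨b, -, rfl⟩ := ht
        refine ⟨P' (Sum.inl ⟨⟨j, hj⟩, b⟩) 2 / P' (Sum.inl ⟨⟨j, hj⟩, b⟩) 1,
          hlin (Sum.inl ⟨⟨j, hj⟩, b⟩) _ _ (hg j) (hP ⟨j, hj⟩ b).2.1, ?_⟩
        have h1 := hlin (Sum.inl ⟨⟨j, hj⟩, b⟩) _ _ (hh.mul
          (IsHomogeneous.prod (Finset.univ.filter (· < j)) _ _ fun j _ => hg j))
          (hP ⟨j, hj⟩ b).2.2
        rwa [hprod] at h1
    · refine Or.inr ⟨?_, fun z hz h0 h1 => ?_⟩
      · rcases hdg with h | h
        · exact Or.inl h
        · by_cases h4 : 4 ≤ e + ∑ l ∈ Finset.univ.filter (· < j), n l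
          · exact Or.inl h4
          · exact Or.inr ⟨by omega, irr_lin hA h⟩
      · rw [← hprod] at h1
        rw [eval_lin] at h0 h1
        rcases hm _ (lin_vec_ne hA hz) h0 h1 with h | h
        · left
          rw [← hprod]
          exact ind_lin hA h
        · exact Or.inr (qh_lin hA h)

end Pool.Agent.H941.QK
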