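import Pool.Agent.H941.QK.Tend
import Pool.Agent.H941.QH.Lina
import Pool.Agent.H941.SC.Curve

set_option autoImplicit false
set_option linter.unusedSectionVars false
set_option linter.unusedVariables false

/-! # Continuous sections on a curve -/

namespace Pool.Agent.H941.QK

open MvPolynomial Filter Topology Pool.Agent.Helper748.MC Pool.Agent.Helper748.TP
  Pool.Agent.H941.TF Pool.Agent.H941.SC Pool.Agent.H941.NC Pool.Agent.H941.ND Pool.Agent.H941.QH

/-- The derivative in the direction `v`. -/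
noncomputable def dv (v : Fin 3 → ℂ) (S : MvPolynomial (Fin 3) ℂ) : MvPolynomial (Fin 3) ℂ :=
  ∑ i, C (v i) * pderiv i S

/-- **Continuity.** The function `A / B` on the cone `S = 0` has a limit at the point `z`. -/
def ContAt (S A B : MvPolynomial (Fin 3) ℂ) (z : Fin 3 → ℂ) : Prop :=
  ∃ ℓ : ℂ, Tendsto (fun w => eval w A / eval w B) (𝓝[{w | eval w S = 0 ∧ eval w B ≠ 0}] z) (𝓝 ℓ)

/-- **Regularity.** The function `A / B` on the cone `S = 0` is equal to a quotient `W / c` of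
polynomials with `c(z) ≠ 0`. -/
def RegAt (S A B : MvPolynomial (Fin 3) ℂ) (z : Fin 3 → ℂ) : Prop :=
  ∃ c W : MvPolynomial (Fin 3) ℂ, eval z c ≠ 0 ∧ S ∣ c * A - B * W

/-- **The conductor of the seminormalization.** For the functions `P / ∂_v S` on the cone `S = 0`
(where `P` is a form, `S(v) ≠ 0`) which have a limit at `z`, the product with `L` is regular at
`z`. -/
def CondAt (L S : MvPolynomial (Fin 3) ℂ) (z : Fin 3 → ℂ) : Prop :=
  ∀ (n : ℕ) (v : Fin 3 → ℂ) (P : MvPolynomial (Fin 3) ℂ), eval v S ≠ 0 → P.IsHomogeneous n →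
    ContAt S P (dv v S) z → RegAt S (L * P) (dv v S) z

/-- **The continuous sections are cubic forms.** Each rational section `P / ∂_v S` of `O(3)` on the
curve `S = 0` (where `P` is a form of degree `deg S + 2`, `S(v) ≠ 0`), which is continuous on the curve
and regular at the non-resonant quasi-homogeneous points of `f`, is the restriction of a cubic
form `Z`. -/
def Cubic (f S : MvPolynomial (Fin 3) ℂ) (e : ℕ) : Prop :=
  ∀ (v : Fin 3 → ℂ) (P : MvPolynomial (Fin 3) ℂ), eval v S ≠ 0 → P.IsHomogeneous (e + 2) →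
    (∀ z : Fin 3 → ℂ, z ≠ 0 → eval z S = 0 →
      ContAt S P (dv v S) z ∧ (QHAt f z → RegAt S P (dv v S) z)) →
    ∃ Z : MvPolynomial (Fin 3) ℂ, Z.IsHomogeneous 3 ∧ S ∣ P - dv v S * Z

/-- **The Jacobian ideal.** The form `L` is in the ideal of the partial derivatives of `S`, locally
at `z`. -/
def JacAt (L S : MvPolynomial (Fin 3) ℂ) (z : Fin 3 → ℂ) : Prop :=
  ∃ (M : MvPolynomial (Fin 3) ℂ) (a : Fin 3 → MvPolynomial (Fin 3) ℂ),
    eval z M ≠ 0 ∧ M * L = ∑ i, a i * pderiv i S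

theorem jac_lin {A : Matrix (Fin 3) (Fin 3) ℂ} (hA : A.det ≠ 0) {L S : MvPolynomial (Fin 3) ℂ}
    {z : Fin 3 → ℂ} (h : JacAt L S (fun i => ∑ j, A i j * z j)) :
    JacAt (lin A L) (lin A S) z := by
  have hu : IsUnit A.det := isUnit_iff_ne_zero.2 hA
  obtain ⟨M, a, h1, h2⟩ := h
  refine ⟨lin A M, fun j => ∑ i, C (A⁻¹ j i) * lin A (a i), ?_, ?_⟩
  · rw [eval_lin]
    exact h1
  · have e1 : ∀ i k, ∑ j, (C (A⁻¹ j i) * C (A k j) : MvPolynomial (Fin 3) ℂ) =
        if k = i then 1 else 0 := by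
      intro i k
      have e2 : ∑ j, A k j * A⁻¹ j i = (1 : Matrix (Fin 3) (Fin 3) ℂ) k i := by
        rw [← Matrix.mul_apply, Matrix.mul_nonsing_inv A hu]
      have e3 : ∑ j, (C (A⁻¹ j i) * C (A k j) : MvPolynomial (Fin 3) ℂ) =
          C (∑ j, A k j * A⁻¹ j i) := by
        rw [map_sum]
        refine Finset.sum_congr rfl fun j _ => ?_
        rw [C_mul]
        ring
      rw [e3, e2, Matrix.one_apply]
      split_ifs
      · exact C_1
      · exact C_0
    rw [← map_mul, h2, map_sum]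
    symm
    calc ∑ j, (∑ i, C (A⁻¹ j i) * lin A (a i)) * pderiv j (lin A S)
        = ∑ i, ∑ k, (∑ j, (C (A⁻¹ j i) * C (A k j) : MvPolynomial (Fin 3) ℂ)) *
            (lin A (a i) * lin A (pderiv k S)) := by
          simp only [pderiv_lin, Finset.mul_sum, Finset.sum_mul]
          refine (Finset.sum_congr rfl fun j _ => Finset.sum_comm).trans ?_
          rw [Finset.sum_comm]
          refine Finset.sum_congr rfl fun i _ => ?_
          rw [Finset.sum_comm]
          refine Finset.sum_congr rfl fun k _ => Finset.sum_congr rfl fun j _ => ?_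
          ring
      _ = ∑ i, lin A (a i * pderiv i S) := by
          refine Finset.sum_congr rfl fun i _ => ?_
          rw [Finset.sum_eq_single i]
          · rw [e1, if_pos rfl, one_mul, map_mul]
          · intro k _ hk
            rw [e1, if_neg hk, zero_mul]
          · intro h
            exact absurd (Finset.mem_univ i) h

theorem lin_dv (A : Matrix (Fin 3) (Fin 3) ℂ) (v : Fin 3 → ℂ) (S : MvPolynomial (Fin 3) ℂ) :
    dv v (lin A S) = lin A (dv (fun i => ∑ j, A i j * v j) S) := by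
  rw [dv, dv, map_sum]
  simp only [pderiv_lin, map_mul, lin_C, map_sum, Finset.mul_sum, Finset.sum_mul]
  rw [Finset.sum_comm]
  refine Finset.sum_congr rfl fun i _ => Finset.sum_congr rfl fun j _ => ?_
  ring

theorem dv2 (S : MvPolynomial (Fin 3) ℂ) : dv ![0, 0, 1] S = pderiv 2 S := by
  rw [dv, Fin.sum_univ_three]
  simp

theorem contAt_lin {A : Matrix (Fin 3) (Fin 3) ℂ} (hA : A.det ≠ 0)
    {S P B : MvPolynomial (Fin 3) ℂ} {z : Fin 3 → ℂ}
    (h : ContAt (lin A S) (lin A P) (lin A B) z) :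
    ContAt S P B (fun i => ∑ j, A i j * z j) := by
  have hu : IsUnit A.det := isUnit_iff_ne_zero.2 hA
  obtain ⟨ℓ, h⟩ := h
  refine ⟨ℓ, ?_⟩
  have e1 : ∀ w : Fin 3 → ℂ, (fun i => ∑ j, A i j * (∑ k, A⁻¹ j k * w k)) = w := by
    intro w
    have h1 : A.mulVec (A⁻¹.mulVec w) = w := by
      rw [Matrix.mulVec_mulVec, Matrix.mul_nonsing_inv A hu, Matrix.one_mulVec]
    exact h1
  have e2 : (fun i => ∑ j, A⁻¹ i j * (∑ k, A j k * z k)) = z := by
    have h1 : A⁻¹.mulVec (A.mulVec z) = z := by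
      rw [Matrix.mulVec_mulVec, Matrix.nonsing_inv_mul A hu, Matrix.one_mulVec]
    exact h1
  have ht : Tendsto (fun w : Fin 3 → ℂ => fun i => ∑ j, A⁻¹ i j * w j)
      (𝓝[{w | eval w S = 0 ∧ eval w B ≠ 0}] (fun i => ∑ j, A i j * z j))
      (𝓝[{w | eval w (lin A S) = 0 ∧ eval w (lin A B) ≠ 0}] z) := by
    refine tendsto_nhdsWithin_iff.2 ⟨?_, ?_⟩
    · have h1 : Continuous (fun w : Fin 3 → ℂ => fun i => ∑ j, A⁻¹ i j * w j) := by fun_prop
      have h2 := h1.tendsto (fun i => ∑ j, A i j * z j)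
      rw [e2] at h2
      exact h2.mono_left nhdsWithin_le_nhds
    · filter_upwards [self_mem_nhdsWithin] with w hw
      refine ⟨?_, ?_⟩
      · rw [eval_lin, e1]
        exact hw.1
      · rw [eval_lin, e1]
        exact hw.2
  refine (h.comp ht).congr fun w => ?_
  rw [Function.comp_apply, eval_lin, eval_lin, e1]

theorem lin_surj {A : Matrix (Fin 3) (Fin 3) ℂ} (hA : A.det ≠ 0) (p : MvPolynomial (Fin 3) ℂ) :
    lin A (lin A⁻¹ p) = p := by
  rw [lin_lin, Matrix.nonsing_inv_mul A (isUnit_iff_ne_zero.2 hA), lin_one]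

theorem dvd_lin {A : Matrix (Fin 3) (Fin 3) ℂ} (hA : A.det ≠ 0) {p q : MvPolynomial (Fin 3) ℂ} :
    lin A p ∣ lin A q ↔ p ∣ q :=
  map_dvd_iff (linE A hA)

theorem regAt_lin {A : Matrix (Fin 3) (Fin 3) ℂ} (hA : A.det ≠ 0)
    {S P B : MvPolynomial (Fin 3) ℂ} {z : Fin 3 → ℂ} :
    RegAt (lin A S) (lin A P) (lin A B) z ↔ RegAt S P B (fun i => ∑ j, A i j * z j) := by
  constructor
  · rintro ⟨c, W, h1, h2⟩
    refine ⟨lin A⁻¹ c, lin A⁻¹ W, ?_, ?_⟩
    · rw [← eval_lin, lin_surj hA]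
      exact h1
    · rw [← dvd_lin hA, map_sub, map_mul, map_mul, lin_surj hA, lin_surj hA]
      exact h2
  · rintro ⟨c, W, h1, h2⟩
    refine ⟨lin A c, lin A W, ?_, ?_⟩
    · rw [eval_lin]
      exact h1
    · rw [← map_mul, ← map_mul, ← map_sub, dvd_lin hA]
      exact h2

/-- the conductor in the new coordinates -/
theorem cond_lin {A : Matrix (Fin 3) (Fin 3) ℂ} (hA : A.det ≠ 0) {L S : MvPolynomial (Fin 3) ℂ}
    {z : Fin 3 → ℂ} (h : CondAt L S (fun i => ∑ j, A i j * z j))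
    (hv : eval ![0, 0, 1] (lin A S) ≠ 0) {n : ℕ} {P : MvPolynomial (Fin 3) ℂ}
    (hP : P.IsHomogeneous n) (hc : ContAt (lin A S) P (pderiv 2 (lin A S)) z) :
    RegAt (lin A S) (lin A L * P) (pderiv 2 (lin A S)) z := by
  rw [eval_lin] at hv
  rw [← dv2, lin_dv] at hc ⊢
  rw [← lin_surj hA P] at hc ⊢
  rw [← map_mul, regAt_lin hA]
  exact h n _ _ hv (lin_homog _ hP) (contAt_lin hA hc)

/-- continuous sections in the new coordinates -/
theorem cubic_lin {A : Matrix (Fin 3) (Fin 3) ℂ} (hA : A.det ≠ 0) {f S : MvPolynomial (Fin 3) ℂ}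
    {e : ℕ} (h : Cubic f S e) (hv : eval ![0, 0, 1] (lin A S) ≠ 0)
    {P : MvPolynomial (Fin 3) ℂ} (hP : P.IsHomogeneous (e + 2))
    (hc : ∀ z : Fin 3 → ℂ, z ≠ 0 → eval z (lin A S) = 0 →
      ContAt (lin A S) P (pderiv 2 (lin A S)) z ∧
        (QHAt (lin A f) z → RegAt (lin A S) P (pderiv 2 (lin A S)) z)) :
    ∃ Z : MvPolynomial (Fin 3) ℂ, Z.IsHomogeneous 3 ∧ lin A S ∣ P - pderiv 2 (lin A S) * Z := by
  have hu : IsUnit A.det := isUnit_iff_ne_zero.2 hA
  rw [eval_lin] at hv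
  rw [← dv2, lin_dv] at hc ⊢
  rw [← lin_surj hA P] at hc ⊢
  have e1 : ∀ w : Fin 3 → ℂ, (fun i => ∑ j, A i j * (∑ k, A⁻¹ j k * w k)) = w := by
    intro w
    have h1 : A.mulVec (A⁻¹.mulVec w) = w := by
      rw [Matrix.mulVec_mulVec, Matrix.mul_nonsing_inv A hu, Matrix.one_mulVec]
    exact h1
  obtain ⟨Z, hZ, hd⟩ := h _ (lin A⁻¹ P) hv (lin_homog _ hP) (fun z hz h0 => by
    obtain ⟨k1, k2⟩ := hc (fun i => ∑ j, A⁻¹ i j * z j) (by
        intro h1
        apply hz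
        rw [← e1 z]
        funext i
        have h2 : ∀ j, ∑ k, A⁻¹ j k * z k = 0 := fun j => congrFun h1 j
        simp [h2])
      (by rw [eval_lin, e1]; exact h0)
    have k3 := contAt_lin hA k1
    rw [e1] at k3
    refine ⟨k3, fun hq => ?_⟩
    have k4 := (regAt_lin hA).1 (k2 (qh_lin hA (by rw [e1]; exact hq)))
    rwa [e1] at k4)
  refine ⟨lin A Z, lin_homog _ hZ, ?_⟩
  rw [← map_mul, ← map_sub, dvd_lin hA]
  exact hd

/-- homogenization -/
theorem hom_of_TD (n : ℕ) (P : Polynomial (Polynomial ℂ)) (h : TD (n : ℤ) P) :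
    ∃ A : MvPolynomial (Fin 3) ℂ, A.IsHomogeneous n ∧ ch A = P := by
  refine ⟨∑ i ∈ P.support, ∑ j ∈ (P.coeff i).support,
    C ((P.coeff i).coeff j) * X 0 ^ j * X 2 ^ i * X 1 ^ (n - i - j), ?_, ?_⟩
  · refine IsHomogeneous.sum _ _ _ fun i _ => IsHomogeneous.sum _ _ _ fun j hj => ?_
    have h1 : i + j ≤ n := by
      by_contra hcon
      exact (Polynomial.mem_support_iff.1 hj) (h i j (by push_cast; omega))
    have h2 := (((isHomogeneous_C (Fin 3) ((P.coeff i).coeff j)).mul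
      ((isHomogeneous_X ℂ (0 : Fin 3)).pow j)).mul ((isHomogeneous_X ℂ (2 : Fin 3)).pow i)).mul
      ((isHomogeneous_X ℂ (1 : Fin 3)).pow (n - i - j))
    have h3 : 0 + 1 * j + 1 * i + 1 * (n - i - j) = n := by omega
    rwa [h3] at h2
  · have hX0 : ch (X 0) = Polynomial.C Polynomial.X := by simp [ch]
    have hX1 : ch (X 1) = 1 := by simp [ch]
    have hX2 : ch (X 2) = Polynomial.X := by simp [ch]
    rw [map_sum]
    conv_rhs => rw [P.as_sum_support_C_mul_X_pow]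
    refine Finset.sum_congr rfl fun i _ => ?_
    rw [map_sum]
    conv_rhs => rw [(P.coeff i).as_sum_support_C_mul_X_pow, map_sum, Finset.sum_mul]
    refine Finset.sum_congr rfl fun j _ => ?_
    rw [map_mul, map_mul, map_mul, map_pow, map_pow, map_pow, hX0, hX1, hX2, one_pow, mul_one,
      ch_C, kc, Polynomial.C_mul, Polynomial.C_pow]

/-- continuity on the cone -/
theorem cone_cont {n k e : ℕ} {P B H : MvPolynomial (Fin 3) ℂ} (hP : P.IsHomogeneous n)
    (hB : B.IsHomogeneous k) (hH : H.IsHomogeneous e) {z : Fin 3 → ℂ} (hz : z 1 ≠ 0)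
    (h : ∃ ℓ : ℂ, Tendsto (fun y : ℂ × ℂ => ev2 (ch P) y.1 y.2 / ev2 (ch B) y.1 y.2)
      (𝓝[{y | ev2 (ch H) y.1 y.2 = 0 ∧ ev2 (ch B) y.1 y.2 ≠ 0}] (z 0 / z 1, z 2 / z 1)) (𝓝 ℓ)) :
    ContAt H P B z := by
  obtain ⟨ℓ, h⟩ := h
  have key : ∀ {m : ℕ} {p : MvPolynomial (Fin 3) ℂ}, p.IsHomogeneous m → ∀ w : Fin 3 → ℂ,
      w 1 ≠ 0 → eval w p = w 1 ^ m * ev2 (ch p) (w 0 / w 1) (w 2 / w 1) := by
    intro m p hp w hw
    have h1 : w = fun i => w 1 * (![w 0 / w 1, 1, w 2 / w 1] : Fin 3 → ℂ) i := by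
      funext i
      fin_cases i
      · simp [mul_div_cancel₀ _ hw]
      · simp
      · simp [mul_div_cancel₀ _ hw]
    rw [ev_ch, ← eval_smul_pt hp, ← h1]
  have c1 : ContinuousAt (fun w : Fin 3 → ℂ => w 1) z := (continuous_apply 1).continuousAt
  have hne : ∀ᶠ w in 𝓝[{w | eval w H = 0 ∧ eval w B ≠ 0}] z, w 1 ≠ 0 :=
    (c1.eventually_ne hz).filter_mono nhdsWithin_le_nhds
  have ht : Tendsto (fun w : Fin 3 → ℂ => (w 0 / w 1, w 2 / w 1))
      (𝓝[{w | eval w H = 0 ∧ eval w B ≠ 0}] z)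
      (𝓝[{y | ev2 (ch H) y.1 y.2 = 0 ∧ ev2 (ch B) y.1 y.2 ≠ 0}] (z 0 / z 1, z 2 / z 1)) := by
    refine tendsto_nhdsWithin_iff.2 ⟨?_, ?_⟩
    · refine Tendsto.mono_left ?_ nhdsWithin_le_nhds
      exact (((continuous_apply 0).continuousAt.div c1 hz).prodMk
        ((continuous_apply 2).continuousAt.div c1 hz)).tendsto
    · filter_upwards [self_mem_nhdsWithin, hne] with w hw hw1
      obtain ⟨k1, k2⟩ := hw
      rw [key hH w hw1] at k1
      rw [key hB w hw1] at k2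
      exact ⟨(mul_eq_zero.1 k1).resolve_left (pow_ne_zero _ hw1), right_ne_zero_of_mul k2⟩
  refine ⟨z 1 ^ n / z 1 ^ k * ℓ, ?_⟩
  have h2 : Tendsto (fun w : Fin 3 → ℂ => w 1 ^ n / w 1 ^ k)
      (𝓝[{w | eval w H = 0 ∧ eval w B ≠ 0}] z) (𝓝 (z 1 ^ n / z 1 ^ k)) :=
    (((c1.pow n).div (c1.pow k) (pow_ne_zero _ hz)).tendsto).mono_left nhdsWithin_le_nhds
  refine (h2.mul (h.comp ht)).congr' ?_
  filter_upwards [hne] with w hw1
  rw [key hP w hw1, key hB w hw1, Function.comp_apply, div_mul_div_comm]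

/-- continuity where the denominator does not vanish -/
theorem cont_ne {P B H : MvPolynomial (Fin 3) ℂ} {z : Fin 3 → ℂ} (hz : eval z B ≠ 0) :
    ContAt H P B z := by
  refine ⟨eval z P / eval z B, ?_⟩
  refine Tendsto.mono_left ?_ nhdsWithin_le_nhds
  exact ((MvPolynomial.continuous_eval P).continuousAt.div
    (MvPolynomial.continuous_eval B).continuousAt hz).tendsto

end Pool.Agent.H941.QK
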