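import Pool.Agent.H941.QK.Local
import Pool.Agent.H941.QK.Form

set_option autoImplicit false
set_option linter.unusedSectionVars false
set_option linter.unusedVariables false

/-! # From forms to affine polynomials -/

namespace Pool.Agent.H941.QK

open MvPolynomial Filter Topology Pool.Agent.Helper748.MC Pool.Agent.Helper748.TP
  Pool.Agent.H941.TF Pool.Agent.H941.SC Pool.Agent.H941.NC Pool.Agent.H941.ND Pool.Agent.H941.QH

/-- a line which does not contain the center of projection -/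
theorem line_aff {l : MvPolynomial (Fin 3) ℂ} (hl : l.IsHomogeneous 1)
    (h0 : eval ![0, 0, 1] l ≠ 0) : ∃ a : Polynomial ℂ, a.natDegree ≤ 1 ∧
      ch l = kc (eval ![0, 0, 1] l) * (Polynomial.X - Polynomial.C a) := by
  obtain ⟨gd, gc⟩ := ch_top hl
  have T := TD_ch hl
  set γ := eval ![0, 0, 1] l with hγ
  refine ⟨Polynomial.C (-γ⁻¹) * (ch l).coeff 0, ?_, ?_⟩
  · refine (Polynomial.natDegree_C_mul_le _ _).trans ?_
    rw [Polynomial.natDegree_le_iff_coeff_eq_zero]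
    intro j hj
    exact T 0 j (by push_cast; omega)
  · have h1 := Polynomial.eq_X_add_C_of_natDegree_le_one gd
    have h2 : (Polynomial.C γ * (Polynomial.C (-γ⁻¹)) : Polynomial ℂ) = -1 := by
      rw [← Polynomial.C_mul, mul_neg, mul_inv_cancel₀ h0, Polynomial.C_neg, Polynomial.C_1]
    conv_lhs => rw [h1, gc]
    rw [kc, mul_sub, ← Polynomial.C_mul, ← mul_assoc, h2, neg_one_mul, Polynomial.C_neg]
    ring

theorem line_ndvd {e : ℕ} {l H : MvPolynomial (Fin 3) ℂ} (hl : l.IsHomogeneous 1)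
    (h0 : eval ![0, 0, 1] l ≠ 0) (hH : H.IsHomogeneous e) (he : e ≠ 0) {z : Fin 3 → ℂ}
    (hz : eval z l = 0) (hzH : eval z H ≠ 0) {a : Polynomial ℂ} (ha : a.natDegree ≤ 1)
    (hal : ch l = kc (eval ![0, 0, 1] l) * (Polynomial.X - Polynomial.C a)) :
    ¬ (Polynomial.X - Polynomial.C a) ∣ ch H := by
  intro hd
  -- all points of the line with `z 1 ≠ 0`
  have key : ∀ w : Fin 3 → ℂ, w 1 ≠ 0 → eval w l = 0 → eval w H = 0 := by
    intro w hw h1
    have e1 : w = fun i => w 1 * (![w 0 / w 1, 1, w 2 / w 1] : Fin 3 → ℂ) i := by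
      funext i
      fin_cases i
      · simp [mul_div_cancel₀ _ hw]
      · simp
      · simp [mul_div_cancel₀ _ hw]
    rw [e1, eval_smul_pt hl] at h1
    have h2 := (mul_eq_zero.1 h1).resolve_left (pow_ne_zero _ hw)
    rw [← ev_ch, hal, ev2_mul, ev2_kc] at h2
    have h3 := ev2_dvd hd ((mul_eq_zero.1 h2).resolve_left h0)
    rw [ev_ch] at h3
    rw [e1, eval_smul_pt hH, h3, mul_zero]
  by_cases hz1 : z 1 = 0
  · -- move along the line
    set γ := eval ![0, 0, 1] l with hγ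
    set β := eval ![0, 1, 0] l with hβ
    -- `l` is linear
    have hlin : ∀ u w : Fin 3 → ℂ, ∀ s : ℂ, eval (fun i => u i + s * w i) l =
        eval u l + s * eval w l := by
      intro u w s
      have h1 : ∀ m ∈ l.support, ∃ i, m = Finsupp.single i 1 := by
        intro m hm
        have h2 := hl (mem_support_iff.1 hm)
        rw [Finsupp.weight_apply, Finsupp.sum_fintype _ _ (by intro; simp)] at h2
        simp only [Pi.one_apply, smul_eq_mul, mul_one] at h2
        rw [Fin.sum_univ_three] at h2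
        have h3 : (m 0 = 1 ∧ m 1 = 0 ∧ m 2 = 0) ∨ (m 0 = 0 ∧ m 1 = 1 ∧ m 2 = 0) ∨
            (m 0 = 0 ∧ m 1 = 0 ∧ m 2 = 1) := by omega
        rcases h3 with ⟨a1, a2, a3⟩ | ⟨a1, a2, a3⟩ | ⟨a1, a2, a3⟩
        · refine ⟨0, ?_⟩
          ext i
          fin_cases i <;> simp [a1, a2, a3]
        · refine ⟨1, ?_⟩
          ext i
          fin_cases i <;> simp [a1, a2, a3]
        · refine ⟨2, ?_⟩
          ext i
          fin_cases i <;> simp [a1, a2, a3]
      rw [eval_eq, eval_eq, eval_eq, Finset.mul_sum, ← Finset.sum_add_distrib]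
      refine Finset.sum_congr rfl fun m hm => ?_
      obtain ⟨i, rfl⟩ := h1 m hm
      rw [Finsupp.support_single_ne_zero i one_ne_zero, Finset.prod_singleton,
        Finset.prod_singleton, Finset.prod_singleton, Finsupp.single_eq_same]
      ring
    -- the polynomial in the parameter
    have h1 : ∀ s : ℂ, s ≠ 0 → eval (fun i => z i + s * ![0, γ, -β] i) H = 0 := by
      intro s hs
      refine key _ ?_ ?_
      · change z 1 + s * γ ≠ 0
        rw [hz1, zero_add]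
        exact mul_ne_zero hs h0
      · rw [hlin, hz]
        have h2 : (![0, γ, -β] : Fin 3 → ℂ) = fun i => γ * (![0, 1, 0] : Fin 3 → ℂ) i +
            -β * (![0, 0, 1] : Fin 3 → ℂ) i := by
          funext i
          fin_cases i <;> simp
        have h3 : eval (fun i => γ * (![0, 1, 0] : Fin 3 → ℂ) i) l = γ * β := by
          rw [eval_smul_pt hl, pow_one]
        rw [h2, hlin, h3]
        ring
    have h2 : Continuous fun s : ℂ => eval (fun i => z i + s * (![0, γ, -β] : Fin 3 → ℂ) i) H := by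
      refine (MvPolynomial.continuous_eval H).comp ?_
      fun_prop
    have h3 : Tendsto (fun s : ℂ => eval (fun i => z i + s * (![0, γ, -β] : Fin 3 → ℂ) i) H)
        (𝓝[≠] 0) (𝓝 (eval z H)) := by
      have := (h2.tendsto 0).mono_left (nhdsWithin_le_nhds (s := {0}ᶜ))
      simpa using this
    apply hzH
    refine tendsto_nhds_unique h3 (tendsto_const_nhds.congr' ?_)
    filter_upwards [self_mem_nhdsWithin] with s hs
    exact (h1 s hs).symm
  · exact hzH (key z hz1 hz)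

/-- the conductor -/
theorem ca_of {e : ℕ} {H L : MvPolynomial (Fin 3) ℂ} (hH : H.IsHomogeneous e) {t x : ℂ}
    (h : ∀ (n : ℕ) (P : MvPolynomial (Fin 3) ℂ), P.IsHomogeneous n →
      ContAt H P (pderiv 2 H) ![t, 1, x] → RegAt H (L * P) (pderiv 2 H) ![t, 1, x])
    {F lam : Polynomial (Polynomial ℂ)} {c γ : ℂ} (hc : c ≠ 0) (hγ : γ ≠ 0)
    (hF : F = kc c * ch H) (hL : ch L = kc γ * lam) : CA lam F t x := by
  rintro P ⟨n, TP⟩ ⟨ℓ, hℓ⟩
  obtain ⟨P', hP', rfl⟩ := hom_of_TD n P TP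
  have hFx : Polynomial.derivative F = kc c * ch (pderiv 2 H) := by rw [hF, der_kc, ch_pderiv2]
  have hset : {z : ℂ × ℂ | ev2 F z.1 z.2 = 0 ∧ ev2 (Polynomial.derivative F) z.1 z.2 ≠ 0} =
      {z : ℂ × ℂ | ev2 (ch H) z.1 z.2 = 0 ∧ ev2 (ch (pderiv 2 H)) z.1 z.2 ≠ 0} := by
    ext z
    rw [Set.mem_ofPred_eq, Set.mem_ofPred_eq, hFx, hF, ev2_mul, ev2_mul, ev2_kc, mul_eq_zero,
      mul_ne_zero_iff]
    simp [hc]
  rw [hset] at hℓ
  have hcont : ContAt H P' (pderiv 2 H) ![t, 1, x] := by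
    refine cone_cont hP' (hH.pderiv (i := 2)) hH (z := ![t, 1, x]) (by simp) ⟨c * ℓ, ?_⟩
    have e0 : ((![t, 1, x] : Fin 3 → ℂ) 0 / (![t, 1, x] : Fin 3 → ℂ) 1,
        (![t, 1, x] : Fin 3 → ℂ) 2 / (![t, 1, x] : Fin 3 → ℂ) 1) = (t, x) := by simp
    rw [e0]
    refine (hℓ.const_mul c).congr fun z => ?_
    rw [hFx, ev2_mul (kc c), ev2_kc]
    by_cases h0 : ev2 (ch (pderiv 2 H)) z.1 z.2 = 0
    · rw [h0, mul_zero, div_zero, mul_zero]
    · field_simp
  obtain ⟨C', W, h1, w, hw⟩ := h n P' hP' hcont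
  refine ⟨kc (c * γ) * ch C', ch W, ?_, ch w, ?_⟩
  · rw [ev2_mul, ev2_kc, ev_ch]
    exact mul_ne_zero (mul_ne_zero hc hγ) h1
  · have h2 := congrArg ch hw
    rw [map_sub, map_mul, map_mul, map_mul, map_mul, hL] at h2
    rw [hFx, hF, kc_mul]
    linear_combination kc c * h2

theorem exists_TD (w : Polynomial (Polynomial ℂ)) : ∃ n : ℕ, TD (n : ℤ) w := by
  refine ⟨w.natDegree + ∑ i ∈ Finset.range (w.natDegree + 1), (w.coeff i).natDegree,
    fun i j hij => ?_⟩
  have h2 : w.natDegree + ∑ i ∈ Finset.range (w.natDegree + 1), (w.coeff i).natDegree <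
      i + j := by exact_mod_cast hij
  by_cases hi : i ≤ w.natDegree
  · refine Polynomial.coeff_eq_zero_of_natDegree_lt ?_
    have h1 : (w.coeff i).natDegree ≤
        ∑ i ∈ Finset.range (w.natDegree + 1), (w.coeff i).natDegree :=
      Finset.single_le_sum (f := fun i => (w.coeff i).natDegree)
        (fun _ _ => Nat.zero_le _) (Finset.mem_range.2 (Nat.lt_succ_of_le hi))
    omega
  · have h3 : w.coeff i = 0 := Polynomial.coeff_eq_zero_of_natDegree_lt (by omega)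
    rw [h3, Polynomial.coeff_zero]

theorem ch_inj {n : ℕ} {A : MvPolynomial (Fin 3) ℂ} (hA : A.IsHomogeneous n) (h : ch A = 0) :
    A = 0 := by
  have h1 : A * X 1 = 0 := by
    refine funext fun w => ?_
    rw [map_mul, eval_X, map_zero]
    by_cases hw : w 1 = 0
    · rw [hw, mul_zero]
    · have e1 : w = fun i => w 1 * (![w 0 / w 1, 1, w 2 / w 1] : Fin 3 → ℂ) i := by
        funext i
        fin_cases i
        · simp [mul_div_cancel₀ _ hw]
        · simp
        · simp [mul_div_cancel₀ _ hw]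
      have h2 : eval w A = 0 := by
        rw [e1, eval_smul_pt hA, ← ev_ch, h, ev2_zero, mul_zero]
      rw [h2, zero_mul]
  exact (mul_eq_zero.1 h1).resolve_right (X_ne_zero 1)

theorem hom_dvd {g e : ℕ} {G H : MvPolynomial (Fin 3) ℂ} (hG : G.IsHomogeneous g)
    (hH : H.IsHomogeneous e) (h : ch H ∣ ch G) : ∃ r : ℕ, H ∣ X 1 ^ r * G := by
  obtain ⟨w, hw⟩ := h
  obtain ⟨n, hn⟩ := exists_TD w
  obtain ⟨w', hw', rfl⟩ := hom_of_TD n w hn
  have hX1 : ch (X 1) = 1 := by simp [ch]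
  have h1 : (X 1 ^ (e + n) * G - X 1 ^ g * (H * w') : MvPolynomial (Fin 3) ℂ) = 0 := by
    refine ch_inj (n := e + n + g) ?_ ?_
    · have k1 := ((isHomogeneous_X ℂ (1 : Fin 3)).pow (e + n)).mul hG
      have k2 := ((isHomogeneous_X ℂ (1 : Fin 3)).pow g).mul (hH.mul hw')
      rw [one_mul] at k1 k2
      rw [show g + (e + n) = e + n + g by ring] at k2
      exact k1.sub k2
    · rw [map_sub, map_mul, map_mul, map_mul, map_pow, map_pow, hX1, one_pow, one_pow, one_mul,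
        one_mul, hw, sub_self]
  exact ⟨e + n, X 1 ^ g * w', by rw [sub_eq_zero.1 h1]; ring⟩

theorem reg_form {n k e : ℕ} {P B H : MvPolynomial (Fin 3) ℂ} (hP : P.IsHomogeneous n)
    (hB : B.IsHomogeneous k) (hH : H.IsHomogeneous e) {z : Fin 3 → ℂ} (hz : z 1 ≠ 0)
    {c W : Polynomial (Polynomial ℂ)} (hc : ev2 c (z 0 / z 1) (z 2 / z 1) ≠ 0)
    (hd : ch H ∣ c * ch P - ch B * W) : RegAt H P B z := by
  obtain ⟨n1, T1⟩ := exists_TD c
  obtain ⟨n2, T2⟩ := exists_TD W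
  obtain ⟨c', hc', rfl⟩ := hom_of_TD n1 c T1
  obtain ⟨W', hW', rfl⟩ := hom_of_TD n2 W T2
  have hX1 : ch (X 1) = 1 := by simp [ch]
  obtain ⟨r, hr⟩ := hom_dvd (g := k + n2 + (n1 + n))
    (G := X 1 ^ (k + n2) * (c' * P) - X 1 ^ (n1 + n) * (B * W')) (by
      have k1 := ((isHomogeneous_X ℂ (1 : Fin 3)).pow (k + n2)).mul (hc'.mul hP)
      have k2 := ((isHomogeneous_X ℂ (1 : Fin 3)).pow (n1 + n)).mul (hB.mul hW')
      rw [one_mul] at k1 k2
      rw [show n1 + n + (k + n2) = k + n2 + (n1 + n) by ring] at k2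
      exact k1.sub k2) hH (by
      rw [map_sub, map_mul, map_mul, map_mul, map_mul, map_pow, map_pow, hX1, one_pow, one_pow,
        one_mul, one_mul]
      exact hd)
  refine ⟨X 1 ^ r * (X 1 ^ (k + n2) * c'), X 1 ^ r * (X 1 ^ (n1 + n) * W'), ?_, ?_⟩
  · have e1 : z = fun i => z 1 * (![z 0 / z 1, 1, z 2 / z 1] : Fin 3 → ℂ) i := by
      funext i
      fin_cases i
      · simp [mul_div_cancel₀ _ hz]
      · simp
      · simp [mul_div_cancel₀ _ hz]
    rw [map_mul, map_mul, map_pow, map_pow, eval_X]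
    refine mul_ne_zero (pow_ne_zero _ hz) (mul_ne_zero (pow_ne_zero _ hz) ?_)
    rw [e1, eval_smul_pt hc', ← ev_ch]
    exact mul_ne_zero (pow_ne_zero _ hz) hc
  · obtain ⟨w, hw⟩ := hr
    exact ⟨w, by linear_combination hw⟩

theorem qh_smul {f : MvPolynomial (Fin 3) ℂ} {z : Fin 3 → ℂ} {lam : ℂ} (hl : lam ≠ 0)
    (h : QHAt f z) : QHAt f (fun i => lam * z i) := by
  obtain ⟨k, θ, c, w1, w2, hθ, h1, h2, h3, h4⟩ := h
  set μ : ℂ := lam / lam ^ k with hμ
  have hlk : lam ^ k ≠ 0 := pow_ne_zero _ hl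
  refine ⟨k, fun i => C μ * θ i, c, w1, w2, fun i => ?_, ?_, fun i => ?_, fun s => ?_, h4⟩
  · have := (isHomogeneous_C (Fin 3) μ).mul (hθ i)
    rwa [zero_add] at this
  · calc ∑ i, C μ * θ i * pderiv i f = C μ * ∑ i, θ i * pderiv i f := by
          rw [Finset.mul_sum]
          exact Finset.sum_congr rfl fun i _ => by ring
      _ = 0 := by rw [h1, mul_zero]
  · rw [map_mul, eval_C, eval_smul_pt (hθ i), h2 i, hμ]
    field_simp
  · rw [← h3 s]
    congr 1
    congr 1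
    ext i j
    rw [Matrix.of_apply, Matrix.of_apply, pderiv_C_mul, map_mul, eval_C,
      eval_smul_pt ((hθ i).pderiv (i := j))]
    rcases k with _ | k
    · have h5 : pderiv j (θ i) = 0 := by
        have h6 := (hθ i).totalDegree_le
        have h7 := (totalDegree_eq_zero_iff_eq_C).1 (Nat.le_zero.1 h6)
        rw [h7, pderiv_C]
      rw [h5, map_zero, mul_zero, mul_zero]
    · rw [hμ, Nat.add_sub_cancel, pow_succ]
      have h5 : lam ^ k ≠ 0 := pow_ne_zero _ hl
      field_simp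

/-- the start with cubic sections -/
theorem start_cubic {N e : ℕ} {Q : Polynomial (Polynomial ℂ)} {B : Finset ℂ}
    {H f : MvPolynomial (Fin 3) ℂ} (hH : H.IsHomogeneous e) {c : ℂ} (hc : c ≠ 0)
    {F : Polynomial (Polynomial ℂ)} (hF : F = kc c * ch H) (hFm : F.Monic)
    (hFs : ∀ t ∉ B, (evt t F).Separable) (hFd : F.natDegree = e) (he : e ≠ 0) (hFQ : F ∣ Q)
    {A H' : Polynomial (Polynomial ℂ)}
    (hH' : ∀ t ∉ B, ∀ x, ev2 F t x = 0 → ev2 H' t x ≠ 0)
    (hpar : ∀ b, Br2 N Q F A H' b) (G : Gr e F A H')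
    (hinf : ∀ z : Fin 3 → ℂ, z ≠ 0 → eval z H = 0 → z 1 = 0 → eval z (pderiv 2 H) ≠ 0)
    (hreg : ∀ t x, eval ![t, 1, x] H = 0 → QHAt f ![t, 1, x] →
      ∃ c W, ev2 c t x ≠ 0 ∧ F ∣ c * A - H' * W)
    (hcub : ∀ P : MvPolynomial (Fin 3) ℂ, P.IsHomogeneous (e + 2) →
      (∀ z : Fin 3 → ℂ, z ≠ 0 → eval z H = 0 →
        ContAt H P (pderiv 2 H) z ∧ (QHAt f z → RegAt H P (pderiv 2 H) z)) →
      ∃ Z : MvPolynomial (Fin 3) ℂ, Z.IsHomogeneous 3 ∧ H ∣ P - pderiv 2 H * Z) :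
    ∃ Z, TD 3 Z ∧ F ∣ A - H' * Z := by
  have TF : TD (e : ℤ) F := by
    rw [hF]
    exact (TD_ch hH).kc_mul _
  obtain ⟨P, TP, hP, hPb⟩ := repr hFm hFs hFd he hFQ hH' hpar G TF
  have TP' : TD ((e + 2 : ℕ) : ℤ) P := by
    push_cast
    exact TP
  obtain ⟨P', hP', rfl⟩ := hom_of_TD _ P TP'
  have hFx : Polynomial.derivative F = kc c * ch (pderiv 2 H) := by rw [hF, der_kc, ch_pderiv2]
  have hset : {z : ℂ × ℂ | ev2 F z.1 z.2 = 0 ∧ ev2 (Polynomial.derivative F) z.1 z.2 ≠ 0} =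
      {z : ℂ × ℂ | ev2 (ch H) z.1 z.2 = 0 ∧ ev2 (ch (pderiv 2 H)) z.1 z.2 ≠ 0} := by
    ext z
    rw [Set.mem_ofPred_eq, Set.mem_ofPred_eq, hFx, hF, ev2_mul, ev2_mul, ev2_kc, mul_eq_zero,
      mul_ne_zero_iff]
    simp [hc]
  have hne : ∀ {t x : ℂ}, t ∉ B → ev2 F t x = 0 → ev2 (Polynomial.derivative F) t x ≠ 0 := by
    intro t x ht h0
    have := sep_der (hFs t ht) h0
    rwa [← evt_der] at this
  have hcc : (kc c * kc c⁻¹ : Polynomial (Polynomial ℂ)) = 1 := by
    rw [← kc_mul, mul_inv_cancel₀ hc, kc_one]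
  obtain ⟨Z, hZ, w, hw⟩ := hcub P' hP' (fun z hz h0 => by
    by_cases hB : eval z (pderiv 2 H) = 0
    swap
    · exact ⟨cont_ne hB, fun _ => ⟨pderiv 2 H, P', hB, 0, by ring⟩⟩
    have hz1 : z 1 ≠ 0 := fun h => hinf z hz h0 h hB
    have e1 : z = fun i => z 1 * (![z 0 / z 1, 1, z 2 / z 1] : Fin 3 → ℂ) i := by
      funext i
      fin_cases i
      · simp [mul_div_cancel₀ _ hz1]
      · simp
      · simp [mul_div_cancel₀ _ hz1]
    have h0' : eval ![z 0 / z 1, 1, z 2 / z 1] H = 0 := by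
      rw [e1, eval_smul_pt hH] at h0
      exact (mul_eq_zero.1 h0).resolve_left (pow_ne_zero _ hz1)
    have h0F : ev2 F (z 0 / z 1) (z 2 / z 1) = 0 := by
      rw [hF, ev2_mul, ev_ch, h0', mul_zero]
    refine ⟨?_, fun hq => ?_⟩
    · obtain ⟨ℓ, hℓ⟩ := tends hFm hFQ (hPb (z 0 / z 1)) h0F
      rw [hset] at hℓ
      refine cone_cont hP' (hH.pderiv (i := 2)) hH hz1 ⟨c * ℓ, (hℓ.const_mul c).congr fun y => ?_⟩
      rw [hFx, ev2_mul (kc c), ev2_kc]
      by_cases h0 : ev2 (ch (pderiv 2 H)) y.1 y.2 = 0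
      · rw [h0, mul_zero, div_zero, mul_zero]
      · field_simp
    · have hq' : QHAt f ![z 0 / z 1, 1, z 2 / z 1] := by
        have h1 := qh_smul (inv_ne_zero hz1) hq
        have h2 : (fun i => (z 1)⁻¹ * z i) = ![z 0 / z 1, 1, z 2 / z 1] := by
          funext i
          fin_cases i
          · change (z 1)⁻¹ * z 0 = z 0 / z 1
            field_simp
          · change (z 1)⁻¹ * z 1 = 1
            exact inv_mul_cancel₀ hz1
          · change (z 1)⁻¹ * z 2 = z 2 / z 1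
            field_simp
        rwa [h2] at h1
      obtain ⟨C', W, hC, hCW⟩ := hreg _ _ h0' hq'
      refine reg_form (c := C') (W := kc c * W) hP' (hH.pderiv (i := 2)) hH hz1 hC ?_
      have h3 : F ∣ C' * ch P' - Polynomial.derivative F * W := by
        refine dvd_of_ev hFm (B := B) fun s hs => ⟨hFs s hs, fun y hy => ?_⟩
        have k1 := ev2_dvd hP hy
        have k2 := ev2_dvd hCW hy
        have k3 := hH' s hs y hy
        rw [ev2_sub, ev2_mul, ev2_mul H'] at k1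
        rw [ev2_sub, ev2_mul C', ev2_mul H'] at k2
        rw [ev2_sub, ev2_mul C', ev2_mul (Polynomial.derivative F)]
        refine (mul_eq_zero.1 ?_).resolve_left k3
        linear_combination ev2 (Polynomial.derivative F) s y * k2 - ev2 C' s y * k1
      obtain ⟨v, hv⟩ := h3
      refine ⟨kc c * v, ?_⟩
      rw [hFx, hF] at hv
      linear_combination hv)
  refine ⟨kc c⁻¹ * ch Z, (TD_ch hZ).kc_mul _, ?_⟩
  have h1 := congrArg ch hw
  rw [map_sub, map_mul, map_mul] at h1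
  have h2 : F ∣ ch P' - Polynomial.derivative F * (kc c⁻¹ * ch Z) := by
    refine ⟨kc c⁻¹ * ch w, ?_⟩
    rw [hFx, hF]
    linear_combination h1 + (-(ch (pderiv 2 H) * ch Z) - ch H * ch w) * hcc
  refine dvd_of_ev hFm (B := B) fun s hs => ⟨hFs s hs, fun y hy => ?_⟩
  have k1 := ev2_dvd hP hy
  have k2 := ev2_dvd h2 hy
  have k3 := hne hs hy
  rw [ev2_sub, ev2_mul, ev2_mul H'] at k1
  rw [ev2_sub, ev2_mul (Polynomial.derivative F)] at k2
  rw [ev2_sub, ev2_mul H']
  refine (mul_eq_zero.1 ?_).resolve_left k3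
  linear_combination k1 + ev2 H' s y * k2

end Pool.Agent.H941.QK
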