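import Pool.Agent.H941.QK.Strip

set_option autoImplicit false
set_option linter.unusedSectionVars false
set_option linter.unusedVariables false

/-! # Continuous functions on a curve, represented by polynomials -/

namespace Pool.Agent.H941.QK

open Polynomial Finset Filter Topology Metric Pool.Agent.Helper748.TP Pool.Agent.H941.TF
  Pool.Agent.H941.SC Pool.Agent.H941.NC Pool.Agent.H941.ND Pool.Agent.H941.QH

/-- the quotient of a polynomial by the derivative of the equation -/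
theorem repr {N e : ℕ} {Q F A H : ℂ[X][X]} {B : Finset ℂ} (hFm : F.Monic)
    (hFs : ∀ t ∉ B, (evt t F).Separable) (hFd : F.natDegree = e) (he : e ≠ 0) (hFQ : F ∣ Q)
    (hH : ∀ t ∉ B, ∀ x, ev2 F t x = 0 → ev2 H t x ≠ 0)
    (hpar : ∀ b, Br2 N Q F A H b) (G : Gr e F A H) (TF : TD (e : ℤ) F) :
    ∃ P, TD ((e : ℤ) + 2) P ∧ F ∣ A * derivative F - H * P ∧
      ∀ b, Br2 N Q F P (derivative F) b := by
  obtain ⟨P, hP⟩ := bdd_poly hFm (by rw [hFd]; exact he) hFQ hFs hH (fun b => by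
    obtain ⟨m, a, L, hm, ha, Pr, hL, -⟩ := hpar b
    exact ⟨m, a, L, hm, ha, Pr, hL⟩)
  have hne : ∀ {t x : ℂ}, t ∉ B → ev2 F t x = 0 → ev2 (derivative F) t x ≠ 0 := by
    intro t x ht h0
    have := sep_der (hFs t ht) h0
    rwa [← evt_der] at this
  have hPF : F ∣ A * derivative F - H * (P %ₘ F) := by
    obtain ⟨w, hw⟩ := hP
    refine ⟨w + H * (P /ₘ F), ?_⟩
    have h3 := modByMonic_add_div P F
    linear_combination hw - H * h3
  have hPd : (P %ₘ F).degree < (e : WithBot ℕ) := by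
    have := degree_modByMonic_lt P hFm
    rwa [degree_eq_natDegree hFm.ne_zero, hFd] at this
  refine ⟨P %ₘ F, ?_, hPF, fun b => ?_⟩
  · obtain ⟨X', x0, hX, hx0, hG⟩ := G
    refine TD_of_lim hX hx0 hPd fun j => ?_
    obtain ⟨h1, h2, L, hL⟩ := hG j
    obtain ⟨l, hl'⟩ := TF.der.lim (hX j)
    refine ⟨L * l, (hL.mul hl').congr' ?_⟩
    filter_upwards [h1, h2, ev_ne] with u k1 k2 k3
    have k4 := ev2_dvd hPF k1
    rw [ev2_sub, ev2_mul, ev2_mul H] at k4
    rw [show ((e : ℤ) + 2) = 3 + ((e : ℤ) - 1) by ring, zpow_add₀ k3]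
    have k5 : ∀ a b l z p q : ℂ, b ≠ 0 → a * l - b * z = 0 →
        p * (a / b) * (q * l) = p * q * z := by
      intro a b l z p q hb h
      field_simp
      linear_combination p * q * h
    exact k5 _ _ _ _ _ _ k2 k4
  · obtain ⟨m, a, L, hm, ha, Pr, hL, hLL⟩ := hpar b
    refine ⟨m, a, L, hm, ha, Pr, fun j hj => (hL j hj).congr' ?_, hLL⟩
    filter_upwards [hj, ev_notin B b hm] with u k1 k2
    have k3 := ev2_dvd hPF k1
    rw [ev2_sub, ev2_mul, ev2_mul H] at k3
    rw [div_eq_div_iff (hH _ k2 _ k1) (hne k2 k1)]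
    linear_combination k3

/-- **Continuity at a point.** -/
theorem tends {N : ℕ} {Q F P w : ℂ[X][X]} (hFm : F.Monic) (hFQ : F ∣ Q) {b x : ℂ}
    (h : Br2 N Q F P w b) (h0 : ev2 F b x = 0) :
    ∃ ℓ, Tendsto (fun z : ℂ × ℂ => ev2 P z.1 z.2 / ev2 w z.1 z.2)
      (𝓝[{z | ev2 F z.1 z.2 = 0 ∧ ev2 w z.1 z.2 ≠ 0}] (b, x)) (𝓝 ℓ) := by
  classical
  obtain ⟨m, a, L, hm, ha, Pr, hL, hLL⟩ := h
  have hT : AnalyticAt ℂ (fun u : ℂ => b + u ^ m) 0 := by fun_prop
  have hT0 : b + (0 : ℂ) ^ m = b := by rw [zero_pow hm.ne', add_zero]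
  obtain ⟨J, hJ, hJ0⟩ := famJ Pr hFm hFQ
  have hp : evt b F = ∏ j ∈ J, (X - C (a j 0)) := by
    have := famJ_lim hT ha hJ
    rwa [hT0] at this
  have hroot : ∀ y, ev2 F b y = 0 → ∃ j ∈ J, a j 0 = y := by
    intro y hy
    rw [ev2, hp, eval_prod, Finset.prod_eq_zero_iff] at hy
    obtain ⟨j, hj, h1⟩ := hy
    rw [eval_sub, eval_X, eval_C] at h1
    exact ⟨j, hj, (sub_eq_zero.1 h1).symm⟩
  obtain ⟨j0, hj0, hx⟩ := hroot x h0
  refine ⟨L j0, ?_⟩
  rw [Metric.tendsto_nhdsWithin_nhds]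
  intro ε hε
  -- separation
  have hη : ∃ η : ℝ, 0 < η ∧ ∀ j ∈ J, a j 0 ≠ x → 2 * η ≤ dist (a j 0) x := by
    have h1 : ∀ s : Finset (Fin N), ∃ η : ℝ, 0 < η ∧ ∀ j ∈ s, a j 0 ≠ x →
        2 * η ≤ dist (a j 0) x := by
      intro s
      induction s using Finset.induction_on with
      | empty => exact ⟨1, one_pos, fun j hj => absurd hj (notMem_empty j)⟩
      | insert i s hi ih =>
        obtain ⟨η, h1, h2⟩ := ih
        by_cases h3 : a i 0 = x
        · refine ⟨η, h1, fun j hj hjx => ?_⟩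
          rcases mem_insert.1 hj with rfl | h4
          · exact absurd h3 hjx
          · exact h2 j h4 hjx
        · have h4 : 0 < dist (a i 0) x := dist_pos.2 h3
          refine ⟨min η (dist (a i 0) x / 2), lt_min h1 (by linarith), fun j hj hjx => ?_⟩
          rcases mem_insert.1 hj with rfl | h5
          · have := min_le_right η (dist (a j 0) x / 2)
            linarith
          · have := min_le_left η (dist (a i 0) x / 2)
            have := h2 j h5 hjx
            linarith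
    exact h1 J
  obtain ⟨η, hη0, hη⟩ := hη
  have hE2 : ∀ᶠ u in 𝓝[≠] (0 : ℂ), ∀ j ∈ J,
      dist (ev2 P (b + u ^ m) (a j u) / ev2 w (b + u ^ m) (a j u)) (L j) < ε := by
    rw [Finset.eventually_all]
    intro j hj
    exact (hL j (hJ0 j hj)).eventually (Metric.ball_mem_nhds _ hε)
  have hE3 : ∀ᶠ u in 𝓝[≠] (0 : ℂ), ∀ j ∈ J, dist (a j u) (a j 0) < η := by
    rw [Finset.eventually_all]
    intro j hj
    exact ((ha j).continuousAt.tendsto.mono_left nhdsWithin_le_nhds).eventually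
      (Metric.ball_mem_nhds _ hη0)
  obtain ⟨r, hr, hE⟩ := Metric.mem_nhdsWithin_iff.1 (hJ.and (hE2.and hE3))
  refine ⟨min η (r ^ m), lt_min hη0 (pow_pos hr m), ?_⟩
  rintro ⟨s, y⟩ ⟨hz1, hz2⟩ hd
  change ev2 F s y = 0 at hz1
  change ev2 w s y ≠ 0 at hz2
  rw [Prod.dist_eq, max_lt_iff] at hd
  obtain ⟨hd1, hd2⟩ := hd
  replace hd1 := lt_of_lt_of_le hd1 (min_le_right _ _)
  replace hd2 := lt_of_lt_of_le hd2 (min_le_left _ _)
  change dist s b < r ^ m at hd1
  change dist y x < η at hd2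
  change dist (ev2 P s y / ev2 w s y) (L j0) < ε
  by_cases hsb : s = b
  · subst hsb
    obtain ⟨j, hj, hjy⟩ := hroot y hz1
    have hyx : y = x := by
      by_contra hne
      have := hη j hj (by rw [hjy]; exact hne)
      rw [hjy] at this
      linarith
    subst hyx
    have e1 := hL j0 (hJ0 j0 hj0)
    have e2 := (tendP P s hm (ha j0)).div (tendP w s hm (ha j0)) (by rw [hx]; exact hz2)
    rw [hx] at e2
    rw [tendsto_nhds_unique e1 e2, dist_self]
    exact hε
  · obtain ⟨u, hu⟩ := IsAlgClosed.exists_pow_nat_eq (s - b) hm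
    have hu0 : u ≠ 0 := by
      rintro rfl
      rw [zero_pow hm.ne'] at hu
      exact hsb (sub_eq_zero.1 hu.symm)
    have hur : dist u 0 < r := by
      rw [dist_zero_right]
      refine lt_of_pow_lt_pow_left₀ m hr.le ?_
      rw [← norm_pow, hu, ← dist_eq_norm]
      exact hd1
    obtain ⟨k1, k2, k3⟩ := hE ⟨hur, hu0⟩
    have hbs : b + u ^ m = s := by rw [hu]; ring
    have k1' : evt (b + u ^ m) F = ∏ j ∈ J, (X - C (a j u)) := k1
    rw [hbs] at k1'
    have h3 := hz1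
    rw [ev2, k1', eval_prod, Finset.prod_eq_zero_iff] at h3
    obtain ⟨j, hj, h4⟩ := h3
    rw [eval_sub, eval_X, eval_C, sub_eq_zero] at h4
    have h5 : a j 0 = x := by
      by_contra hne
      have i1 := hη j hj hne
      have i2 := k3 j hj
      have i3 := dist_triangle (a j 0) (a j u) x
      rw [dist_comm (a j 0) (a j u)] at i3
      rw [h4] at hd2
      linarith
    have h6 := k2 j hj
    rw [hbs, ← h4, hLL j j0 (by rw [h5, hx])] at h6
    exact h6

end Pool.Agent.H941.QK
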