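import Pool.Agent.H941.QH.Main
import Pool.Agent.H941.QK.Tend

set_option autoImplicit false
set_option linter.unusedSectionVars false
set_option linter.unusedVariables false

/-! # There is no primitive -/

namespace Pool.Agent.H941.QK

open Polynomial Finset Filter Topology Metric Pool.Agent.Helper748.TP Pool.Agent.H941.TF
  Pool.Agent.H941.SC Pool.Agent.H941.NC Pool.Agent.H941.ND Pool.Agent.H941.QH

section
variable {k : ℕ} {Γ Γi : Fin k → ℂ[X][X]} {nn : Fin k → ℕ}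
  {F Φi hxQ htQ γ' V p r q : ℂ[X][X]} {D0 d : ℂ[X]} {σ : ℝ} {e n : ℕ}

/-- **There is no primitive.** -/
theorem main (hFm : F.Monic) (he1 : 1 ≤ e) (he : 3 ≤ e + n) (hσ : σ < 0) (hD0 : D0 ≠ 0)
    {α β : ℂ[X][X]}
    (hαβ : C D0 = α * (F * ∏ j, Γ j) + β * derivative (F * ∏ j, Γ j))
    (hFd : F.natDegree = e)
    (TQ : TD ((e + n : ℕ) : ℤ) (F * ∏ j, Γ j))
    (iΦ : Inf F Φi e) (iΓ : ∀ j, Inf (Γ j) (Γi j) (nn j)) (hn : ∑ j, nn j = n)
    (hsi : (evt 0 (Φi * ∏ j, Γi j)).Separable)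
    (TF : TD (e : ℤ) F) (TΓ : ∀ j, TD (nn j : ℤ) (Γ j))
    (hΓm : ∀ j, (Γ j).Monic)
    (hchn : ∀ j, (Irreducible (Γ j) ∧ ∃ τ : Finset ℂ, 3 * nn j < τ.card ∧
        ∀ t ∈ τ, ∃ x, ev2 (Γ j) t x = 0 ∧ ev2 (F * ∏ l ∈ univ.filter (· < j), Γ l) t x = 0) ∨
      ((4 ≤ e + ∑ l ∈ univ.filter (· < j), nn l ∨
        (e + ∑ l ∈ univ.filter (· < j), nn l = 3 ∧ Irreducible (Γ j))) ∧
        ∀ t x, ev2 (Γ j) t x = 0 → ev2 (F * ∏ l ∈ univ.filter (· < j), Γ l) t x = 0 →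
          ev2 (dt (F * ∏ l ∈ univ.filter (· < j), Γ l)) t x * ev2 (derivative (Γ j)) t x -
            ev2 (derivative (F * ∏ l ∈ univ.filter (· < j), Γ l)) t x *
              ev2 (dt (Γ j)) t x ≠ 0 ∨
          QP (F * ∏ j, Γ j) (kc (σ : ℂ) * hxQ) (kc (σ : ℂ) * htQ) t x))
    (D : Dat (e + n) (F * ∏ j, Γ j) γ' hxQ htQ σ V d p r q)
    (hV : V = VV (e + n) (F * ∏ j, Γ j) (kc (σ : ℂ) * hxQ)) {M : ℕ}
    (hγ : γ' ∣ (F * ∏ j, Γ j) ^ M)
    {δ : ℕ} (hlc : hxQ.coeff (e + n - 1) = C (δ : ℂ)) (hsum : σ * δ = -3)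
    (hst : ∀ p1 ρ : ℂ[X][X],
      EE (F * ∏ j, Γ j) (kc (σ : ℂ) * hxQ) (kc (σ : ℂ) * htQ) p1 ρ →
      (∀ b, Br2 (e + n) (F * ∏ j, Γ j) F p1 (kc (σ : ℂ) * hxQ) b) →
      Gr e F p1 (kc (σ : ℂ) * hxQ) → ∃ Z, TD 3 Z ∧ F ∣ p1 - kc (σ : ℂ) * hxQ * Z)
    (hfin : ∀ a6 c6 : ℂ[X][X],
      F * ∏ j, Γ j ∣ dt (F * ∏ j, Γ j) * a6 + derivative (F * ∏ j, Γ j) * c6 →
      a6.natDegree ≤ 1 → c6.natDegree ≤ 2 → TD 2 a6 →
      (F * ∏ j, Γ j) = (F * ∏ j, Γ j) * (dt a6 + derivative c6) + kc (σ : ℂ) * htQ * a6 +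
        kc (σ : ℂ) * hxQ * c6 → False) : False := by
  classical
  have hN2 : 2 ≤ e + n := by omega
  have hFsep : ∀ t ∉ D0.roots.toFinset, (evt t F).Separable := by
    intro t ht
    have h1 : (evt t (F * ∏ j, Γ j)).Separable := by
      refine sep_of_disc hαβ fun h => ?_
      rw [Multiset.mem_toFinset, mem_roots hD0] at ht
      exact ht h
    rw [map_mul] at h1
    exact h1.of_mul_left
  have hhc : (kc (σ : ℂ) * hxQ).coeff (e + n - 1) = -3 := by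
    rw [kc, coeff_C_mul, hlc, ← C_mul]
    have h1 : (σ : ℂ) * δ = -3 := by
      have : ((σ * δ : ℝ) : ℂ) = ((-3 : ℝ) : ℂ) := by rw [hsum]
      push_cast at this
      exact this
    rw [h1, C_neg, map_ofNat (C : ℂ →+* ℂ[X]) 3]
  have hhd : (kc (σ : ℂ) * hxQ).natDegree ≤ e + n - 1 := (natDegree_C_mul_le _ _).trans D.hxd
  have hQm := D.monic
  have hQN := D.deg
  have hB : ∀ t ∉ D0.roots.toFinset, D0.eval t ≠ 0 := by
    intro t ht h
    rw [Multiset.mem_toFinset, mem_roots hD0] at ht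
    exact ht h
  have hsep : ∀ t ∉ D0.roots.toFinset, (evt t (F * ∏ j, Γ j)).Separable := fun t ht =>
    sep_of_disc hαβ (hB t ht)
  have hhne : ∀ t ∉ D0.roots.toFinset, ∀ x, ev2 (F * ∏ j, Γ j) t x = 0 →
      ev2 (kc (σ : ℂ) * hxQ) t x ≠ 0 := fun t ht x h0 => hneQ D hγ hσ (hsep t ht) h0
  have iΨ : Inf (∏ j, Γ j) (∏ j, Γi j) n := by
    have := Inf_prod univ iΓ
    rwa [hn] at this
  -- infinity
  have iQ : Inf (F * ∏ j, Γ j) (Φi * ∏ j, Γi j) (e + n) := iΦ.mul iΨ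
  obtain ⟨X', hX, hX0, hXr, P⟩ := iQ.par hQm hQN (by omega) hsi
  have hdinf : ∀ᶠ u in 𝓝[≠] (0 : ℂ), d.eval u⁻¹ ≠ 0 := by
    filter_upwards [ev_notin' d.roots.toFinset] with u hu h
    apply hu
    rw [Multiset.mem_toFinset, mem_roots D.d0]
    exact h
  obtain ⟨b, hb, hbe, -, -⟩ := D.system hN2 hσ hγ P hdinf
  have TH : TD (((e + n : ℕ) : ℤ) - 1) (kc (σ : ℂ) * hxQ) := TDh iQ (by omega) hX hX0 hhd hbe
  have TV : TD 1 V := by
    rw [hV]
    exact TD_VV hN2 TQ TH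
  have hyi := lim_inf' D hN2 hσ hγ P hX hX0 hdinf hlc hsum TV
  obtain ⟨p1, ρ, hp1, hp1d, hρd, hE⟩ := poly D hN2 hσ hγ hD0 hαβ hhc
    (by rw [hV]; exact natDegree_VV _ _ _)
  have hinf : ∀ x : ℂ → ℂ, AnalyticAt ℂ x 0 →
      (∀ᶠ u in 𝓝 (0 : ℂ), ev2 (Φi * ∏ j, Γi j) u (x u) = 0) →
      (∃ L, Tendsto (fun u => u ^ (3 : ℤ) * (ev2 p1 u⁻¹ (x u / u) /
        ev2 (kc (σ : ℂ) * hxQ) u⁻¹ (x u / u))) (𝓝[≠] 0) (𝓝 L)) ∧
      ∀ᶠ u in 𝓝[≠] (0 : ℂ), ev2 (kc (σ : ℂ) * hxQ) u⁻¹ (x u / u) ≠ 0 := by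
    intro x hxa hx0
    obtain ⟨j, hj⟩ := root_uniq hX hX0 hXr hxa.continuousAt hx0
    have hj' := hj.filter_mono (nhdsWithin_le_nhds (s := {0}ᶜ))
    obtain ⟨L, hL⟩ := hyi j
    refine ⟨⟨L, hL.congr' ?_⟩, ?_⟩
    · filter_upwards [hj', hdinf] with u h1 h2
      rw [yyQ D hp1 _ h2, h1]
      rfl
    · filter_upwards [hj', hbe, P.root, P.inj] with u h1 h2 h3 h4
      rw [h1, h2 j]
      have h5 := der_nod_ne h4 j
      have h6 : ev2 (derivative (F * ∏ j, Γ j)) u⁻¹ (X' j u / u) ≠ 0 := by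
        rw [ev2, evt_der, h3]
        exact h5
      exact mul_ne_zero (by exact_mod_cast (hb j).ne) h6
  have hXroot : ∀ j, ∀ᶠ u in 𝓝 (0 : ℂ), ev2 (Φi * ∏ j, Γi j) u (X' j u) = 0 := by
    intro j
    filter_upwards [hXr] with u hu
    rw [ev2, hu]
    exact eval_nod (x := fun j => X' j u) j
  have TP : TD (((e + n : ℕ) : ℤ) + 2) p1 := by
    refine TD_of_lim (fun j => (hX j).continuousAt.tendsto.mono_left nhdsWithin_le_nhds) hX0
      (lt_of_le' (by omega) (hp1d.trans (by omega))) fun j => ?_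
    obtain ⟨⟨L, hL⟩, hne⟩ := hinf (X' j) (hX j) (hXroot j)
    obtain ⟨l, hl⟩ := TH.lim ((hX j).continuousAt.tendsto.mono_left (nhdsWithin_le_nhds (s := {0}ᶜ)))
    refine ⟨_, (hL.mul hl).congr' ?_⟩
    filter_upwards [hne, ev_ne] with u h1 h2
    rw [show (((e + n : ℕ) : ℤ) + 2) = 3 + (((e + n : ℕ) : ℤ) - 1) by ring, zpow_add₀ h2]
    have h13 : ∀ A B' w1 w2 : ℂ, B' ≠ 0 → w1 * (A / B') * (w2 * B') = w1 * w2 * A := by
      intro A B' w1 w2 i1
      field_simp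
    exact h13 _ _ _ _ h1
  have hFQ : F ∣ F * ∏ j, Γ j := ⟨_, rfl⟩
  have hsΦ : (evt 0 Φi).Separable := by
    have h := hsi
    rw [map_mul] at h
    exact h.of_mul_left
  obtain ⟨XH, hXH, hXH0, hXHr, PH⟩ := iΦ.par hFm hFd (by omega) hsΦ
  have hXHroot : ∀ j, ∀ᶠ u in 𝓝 (0 : ℂ), ev2 Φi u (XH j u) = 0 := by
    intro j
    filter_upwards [hXHr] with u hu
    rw [ev2, hu]
    exact eval_nod (x := fun j => XH j u) j
  have hXHroot' : ∀ j, ∀ᶠ u in 𝓝 (0 : ℂ), ev2 (Φi * ∏ j, Γi j) u (XH j u) = 0 := by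
    intro j
    filter_upwards [hXHroot j] with u hu
    rw [ev2_mul, hu, zero_mul]
  have hXHΦ : ∀ j, ∀ᶠ u in 𝓝[≠] (0 : ℂ), ev2 F u⁻¹ (XH j u / u) = 0 := by
    intro j
    filter_upwards [(hXHroot j).filter_mono nhdsWithin_le_nhds, ev_ne] with u h1 h2
    rw [iΦ.rel u _ h2] at h1
    exact (mul_eq_zero.1 h1).resolve_left (pow_ne_zero _ h2)
  obtain ⟨Z, TZ, hZF⟩ := hst p1 ρ hE (fun b => by
    obtain ⟨m, a, L, hm, ha, Pf, hd, hL, hLL⟩ := fin_pt2 D hN2 hσ hγ hD0 hαβ b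
    refine ⟨m, a, L, hm, ha, Pf, fun j _ => (hL j).congr' ?_, hLL⟩
    filter_upwards [hd] with u hu
    exact yyQ D hp1 _ hu)
    ⟨XH, fun j => XH j 0, fun j => (hXH j).continuousAt.tendsto.mono_left nhdsWithin_le_nhds,
      hXH0, fun j => by
        obtain ⟨h1, h2⟩ := hinf (XH j) (hXH j) (hXHroot' j)
        exact ⟨hXHΦ j, h2, h1⟩⟩
  -- the chain
  have hprf : ∀ i (hi : i < k), univ.filter (fun l : Fin k => l.val < i + 1) =
      insert ⟨i, hi⟩ (univ.filter (fun l : Fin k => l.val < i)) := by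
    intro i hi
    ext l
    rw [mem_insert, mem_filter, mem_filter]
    constructor
    · rintro ⟨-, h⟩
      rcases Nat.lt_succ_iff_lt_or_eq.1 h with h1 | h1
      · exact Or.inr ⟨mem_univ _, h1⟩
      · exact Or.inl (Fin.ext h1)
    · rintro (h | ⟨-, h⟩)
      · rw [h]
        exact ⟨mem_univ _, Nat.lt_succ_self i⟩
      · exact ⟨mem_univ _, Nat.lt_succ_of_lt h⟩
  have hch : ∀ i, i ≤ k → ∃ Z' : ℂ[X][X], TD 3 Z' ∧ ∀ t ∉ D0.roots.toFinset, ∀ x,
      ev2 (F * ∏ l ∈ univ.filter (fun l : Fin k => l.val < i), Γ l) t x = 0 →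
      ev2 (p1 - kc (σ : ℂ) * hxQ * Z') t x = 0 := by
    intro i
    induction i with
    | zero =>
      intro _
      refine ⟨Z, TZ, fun t ht x h0 => ev2_dvd hZF ?_⟩
      have h1 : univ.filter (fun l : Fin k => l.val < 0) = ∅ := by
        refine filter_false_of_mem fun l _ => Nat.not_lt_zero _
      rw [h1, prod_empty, mul_one] at h0
      exact h0
    | succ i ih =>
      intro hi
      obtain ⟨Z', TZ', hZ'⟩ := ih (by omega)
      set j : Fin k := ⟨i, hi⟩ with hj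
      have hflt : univ.filter (fun l : Fin k => l.val < i) = univ.filter (· < j) := by
        ext l
        rw [mem_filter, mem_filter]
        rfl
      rw [hprf i hi, prod_insert (by
        rw [mem_filter, not_and]
        exact fun _ => lt_irrefl _)]
      rw [hflt] at hZ' ⊢
      set A := F * ∏ l ∈ univ.filter (· < j), Γ l with hA
      have hAdvd : A ∣ F * ∏ l ∈ univ.erase j, Γ l := by
        refine mul_dvd_mul_left _ (Finset.prod_dvd_prod_of_subset _ _ _ fun l hl => ?_)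
        rw [mem_filter] at hl
        exact mem_erase.2 ⟨hl.2.ne, mem_univ l⟩
      have hAidvd : Φi * ∏ l ∈ univ.filter (· < j), Γi l ∣ Φi * ∏ l ∈ univ.erase j, Γi l := by
        refine mul_dvd_mul_left _ (Finset.prod_dvd_prod_of_subset _ _ _ fun l hl => ?_)
        rw [mem_filter] at hl
        exact mem_erase.2 ⟨hl.2.ne, mem_univ l⟩
      have hAm : A.Monic := hFm.mul (monic_prod_of_monic _ _ fun i _ => hΓm i)
      have hΓR : Γ j * (F * ∏ l ∈ univ.erase j, Γ l) = F * ∏ j, Γ j := by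
        rw [← Finset.mul_prod_erase univ Γ (mem_univ j)]
        ring
      have hΓRi : Γi j * (Φi * ∏ l ∈ univ.erase j, Γi l) = Φi * ∏ j, Γi j := by
        rw [← Finset.mul_prod_erase univ Γi (mem_univ j)]
        ring
      have hnn : nn j + (e + ∑ l ∈ univ.erase j, nn l) = e + n := by
        rw [← hn, ← Finset.add_sum_erase univ nn (mem_univ j)]
        ring
      have hdone : ∀ t ∉ D0.roots.toFinset, (∀ x, ev2 (Γ j) t x = 0 →
          ev2 (p1 - kc (σ : ℂ) * hxQ * Z') t x = 0) → ∀ x,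
          ev2 (F * (Γ j * ∏ l ∈ univ.filter (· < j), Γ l)) t x = 0 →
          ev2 (p1 - kc (σ : ℂ) * hxQ * Z') t x = 0 := by
        intro t ht h1 x h0
        have h2 : F * (Γ j * ∏ l ∈ univ.filter (· < j), Γ l) = Γ j * A := by
          rw [hA]
          ring
        rw [h2, ev2_mul] at h0
        rcases mul_eq_zero.1 h0 with h3 | h3
        · exact h1 x h3
        · exact hZ' t ht x h3
      rcases hchn j with ⟨hirr, τ, hτ, hτ0⟩ | ⟨hdeg, hmeet⟩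
      · refine ⟨Z', TZ', fun t ht => hdone t ht ?_⟩
        exact step D hN2 hσ hγ hD0 hαβ hp1 TZ' (Γ := Γ j) (R := F * ∏ l ∈ univ.erase j, Γ l)
          (A := A) (Γi := Γi j) (Ri := Φi * ∏ l ∈ univ.erase j, Γi l) (Qi := Φi * ∏ j, Γi j)
          (n' := nn j) (n'' := e + ∑ l ∈ univ.erase j, nn l) hΓR hAdvd hAm (hΓm j) hirr (iΓ j)
          (iΦ.mul (Inf_prod _ iΓ)) hnn hΓRi hsi hZ' (fun x h1 h2 => (hinf x h1 h2).1) hτ hτ0 t ht
      · rcases hdeg with h4 | ⟨h3, hirr⟩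
        · refine ⟨Z', TZ', fun t ht => hdone t ht ?_⟩
          exact step2 D hN2 hσ hγ hD0 hαβ hp1 TZ' hE (Γ := Γ j)
            (R := F * ∏ l ∈ univ.erase j, Γ l) (A := A) (Γi := Γi j)
            (Ri := Φi * ∏ l ∈ univ.erase j, Γi l) (Qi := Φi * ∏ j, Γi j)
            (n' := nn j) (n'' := e + ∑ l ∈ univ.erase j, nn l) hΓR hAdvd hAm (hΓm j) (iΓ j)
            (iΦ.mul (Inf_prod _ iΓ)) (iΦ.mul (Inf_prod _ iΓ)) hAidvd h4 hnn hΓRi hsi hZ'
            (fun x h1 h2 => (hinf x h1 h2).1) hmeet t ht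
        · obtain ⟨c, hc⟩ := step3 D hN2 hσ hγ hD0 hαβ hp1 TZ' hE (Γ := Γ j)
            (R := F * ∏ l ∈ univ.erase j, Γ l) (A := A) (Γi := Γi j)
            (Ri := Φi * ∏ l ∈ univ.erase j, Γi l) (Qi := Φi * ∏ j, Γi j)
            (n' := nn j) (n'' := e + ∑ l ∈ univ.erase j, nn l) hΓR hAdvd hAm (hΓm j) hirr (iΓ j)
            (iΦ.mul (Inf_prod _ iΓ)) (iΦ.mul (Inf_prod _ iΓ)) hAidvd h3.ge hnn hΓRi hsi hZ'
            (fun x h1 h2 => (hinf x h1 h2).1) hmeet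
          refine ⟨Z' + kc c * A, TZ'.add (TD.kc_mul ?_ c), fun t ht x h0 => ?_⟩
          · have h5 := TF.mul (TD_prod (univ.filter (· < j)) TΓ)
            refine h5.mono ?_
            have h6 : ((e + ∑ l ∈ univ.filter (· < j), nn l : ℕ) : ℤ) = 3 := by
              rw [h3]
              rfl
            push_cast at h6 ⊢
            exact h6.le
          · have h2 : F * (Γ j * ∏ l ∈ univ.filter (· < j), Γ l) = Γ j * A := by
              rw [hA]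
              ring
            rw [h2, ev2_mul] at h0
            rcases mul_eq_zero.1 h0 with h5 | h5
            · exact hc t x h5
            · have h6 := hZ' t ht x h5
              rw [ev2_sub, ev2_mul (kc (σ : ℂ) * hxQ)] at h6
              rw [ev2_sub, ev2_mul (kc (σ : ℂ) * hxQ), ev2_add, ev2_mul (kc c), h5]
              linear_combination h6
  have hρ1 : ρ.natDegree ≤ e + n + 1 := by
    have hV1 : V.natDegree ≤ 1 := by rw [hV]; exact natDegree_VV _ _ _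
    have h3 : ρ = (ρ - V * (F * ∏ j, Γ j)) + V * (F * ∏ j, Γ j) := by ring
    rw [h3]
    refine (natDegree_add_le _ _).trans (max_le (by omega) (natDegree_mul_le.trans ?_))
    omega
  obtain ⟨Z', TZ', hZ'⟩ := hch k le_rfl
  refine QH.endgame he hσ hD0 hαβ TQ iΦ iΨ hsi D hγ hhc TH hp1d hρ1 TP TZ' hE ?_ hfin
  intro t ht x h0
  refine hZ' t ht x ?_
  have h1 : univ.filter (fun l : Fin k => l.val < k) = univ :=
    filter_true_of_mem fun l _ => l.2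
  rw [h1]
  exact h0

end

end Pool.Agent.H941.QK
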