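import Pool.Agent.H941.QK.Tend

set_option autoImplicit false
set_option linter.unusedSectionVars false
set_option linter.unusedVariables false

/-! # Products with the other derivative -/

namespace Pool.Agent.H941.QK

open Polynomial Finset Filter Topology Metric Pool.Agent.Helper748.TP Pool.Agent.H941.TF
  Pool.Agent.H941.SC Pool.Agent.H941.NC Pool.Agent.H941.ND Pool.Agent.H941.QH

theorem lim_of_small {f : ℂ → ℂ} {t₀ : ℂ} (hf : MeromorphicAt f t₀)
    (h : Tendsto (fun t => (t - t₀) * f t) (𝓝[≠] t₀) (𝓝 0)) :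
    ∃ l, Tendsto f (𝓝[≠] t₀) (𝓝 l) := by
  have hid : MeromorphicAt (fun t : ℂ => t - t₀) t₀ := by fun_prop
  have h1 : meromorphicOrderAt (fun t : ℂ => t - t₀) t₀ = ((1 : ℤ) : WithTop ℤ) := by
    rw [meromorphicOrderAt_eq_int_iff hid]
    exact ⟨fun _ => 1, analyticAt_const, one_ne_zero, Eventually.of_forall fun z => by simp⟩
  have h2 : 0 < meromorphicOrderAt ((fun t : ℂ => t - t₀) * f) t₀ := by
    rw [← tendsto_zero_iff_meromorphicOrderAt_pos (hid.mul hf)]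
    exact h
  rw [meromorphicOrderAt_mul hid hf, h1] at h2
  refine tendsto_nhds_of_meromorphicOrderAt_nonneg hf ?_
  cases h3 : meromorphicOrderAt f t₀ with
  | top => exact le_top
  | coe n =>
    rw [h3] at h2
    have h4 : (0 : ℤ) < 1 + n := by exact_mod_cast h2
    have h5 : (0 : ℤ) ≤ n := by omega
    exact_mod_cast h5

/-- the slope of a branch -/
theorem slope {F : ℂ[X][X]} {b : ℂ} {m : ℕ} (hm : 0 < m) {a : ℂ → ℂ} (ha : AnalyticAt ℂ a 0)
    (h0 : ∀ᶠ u in 𝓝[≠] (0 : ℂ), ev2 F (b + u ^ m) (a u) = 0) :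
    ∀ᶠ u in 𝓝[≠] (0 : ℂ), (m : ℂ) * u ^ (m - 1) * ev2 (dt F) (b + u ^ m) (a u) +
      deriv a u * ev2 (derivative F) (b + u ^ m) (a u) = 0 := by
  have h1 : ∀ᶠ u in 𝓝[≠] (0 : ℂ), ∀ᶠ v in 𝓝 u, ev2 F (b + v ^ m) (a v) = 0 :=
    (eventually_eventually_nhdsWithin.2 h0).mp (by
      filter_upwards [self_mem_nhdsWithin] with u hu h2
      have h3 : 𝓝[≠] (0 : ℂ) ≤ 𝓝[≠] 0 := le_rfl
      have h4 : 𝓝[{(0 : ℂ)}ᶜ] u = 𝓝 u := isOpen_compl_singleton.nhdsWithin_eq hu
      rwa [h4] at h2)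
  have h2 : ∀ᶠ u in 𝓝[≠] (0 : ℂ), DifferentiableAt ℂ a u :=
    (ha.eventually_analyticAt.filter_mono nhdsWithin_le_nhds).mono fun u hu =>
      hu.differentiableAt
  filter_upwards [h1, h2] with u k1 k2
  have hT : HasDerivAt (fun v : ℂ => b + v ^ m) ((m : ℂ) * u ^ (m - 1)) u := by
    have := (hasDerivAt_pow m u).const_add b
    simpa using this
  have k3 := hasDerivAt_ev2 F hT k2.hasDerivAt
  have k4 : HasDerivAt (fun v => ev2 F (b + v ^ m) (a v)) 0 u :=
    (hasDerivAt_const u (0 : ℂ)).congr_of_eventuallyEq k1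
  exact k3.unique k4

/-- **Bounded functions on the curve, multiplied by the derivative in the other direction.** -/
theorem bdd_poly_t {N : ℕ} {Q F : ℂ[X][X]} (hF : F.Monic) (hF0 : F.natDegree ≠ 0) (hFQ : F ∣ Q)
    {B : Finset ℂ} (hsep : ∀ t ∉ B, (evt t F).Separable) {A H : ℂ[X][X]}
    (hH : ∀ t ∉ B, ∀ x, ev2 F t x = 0 → ev2 H t x ≠ 0)
    (hpar : ∀ b, ∃ (m : ℕ) (a : Fin N → ℂ → ℂ) (L : Fin N → ℂ), 0 < m ∧
      (∀ j, AnalyticAt ℂ (a j) 0) ∧ Par N Q (fun u => b + u ^ m) a ∧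
      ∀ j, (∀ᶠ u in 𝓝[≠] (0 : ℂ), ev2 F (b + u ^ m) (a j u) = 0) →
        Tendsto (fun u => ev2 A (b + u ^ m) (a j u) / ev2 H (b + u ^ m) (a j u))
          (𝓝[≠] 0) (𝓝 (L j))) :
    ∃ P, F ∣ A * dt F - H * P := by
  classical
  obtain ⟨R, α, β, hR, hαβ⟩ := cop hF hF0 hH
  set P0 := (β * A * dt F) %ₘ F with hP0
  have hP0d : P0.degree < F.degree := degree_modByMonic_lt _ hF
  have hdv : F ∣ C R * (A * dt F) - H * P0 := by
    have h3 := modByMonic_add_div (β * A * dt F) F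
    refine ⟨α * (A * dt F) + H * ((β * A * dt F) /ₘ F), ?_⟩
    rw [← hP0] at h3
    linear_combination (A * dt F) * hαβ - H * h3
  clear_value P0
  obtain ⟨P, hP⟩ : C R ∣ P0 := by
    refine C_dvd_of_lim _ R rfl hR P0 fun t₀ z => ?_
    have hmer : MeromorphicAt (fun t => ev2 P0 t z / R.eval t) t₀ := by
      have h1 : AnalyticAt ℂ (fun t => R.eval t) t₀ := by
        simpa using AnalyticAt.aeval_polynomial (analyticAt_id (𝕜 := ℂ) (z := t₀)) R
      have h2 : AnalyticAt ℂ (fun t => ev2 P0 t z) t₀ := by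
        have h3 : Differentiable ℂ fun t => ev2 P0 t z := fun t =>
          (hasDerivAt_ev2 P0 (hasDerivAt_id' t) (hasDerivAt_const t z)).differentiableAt
        exact h3.analyticAt t₀
      exact h2.meromorphicAt.div h1.meromorphicAt
    refine lim_of_small hmer ?_
    obtain ⟨m, a, L, hm, ha, Pr, hL⟩ := hpar t₀
    obtain ⟨J, hJ, hJ0⟩ := famJ Pr hF hFQ
    refine lim_pow hm ?_
    have hBu := ev_notin B t₀ hm
    have hRu := ev_pow t₀ hm hR
    have hall : ∀ᶠ u in 𝓝[≠] (0 : ℂ), ∀ j ∈ J, ev2 F (t₀ + u ^ m) (a j u) = 0 := by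
      rw [Finset.eventually_all]
      exact hJ0
    have hsl : ∀ᶠ u in 𝓝[≠] (0 : ℂ), ∀ j ∈ J,
        (m : ℂ) * u ^ (m - 1) * ev2 (dt F) (t₀ + u ^ m) (a j u) +
          deriv (a j) u * ev2 (derivative F) (t₀ + u ^ m) (a j u) = 0 := by
      rw [Finset.eventually_all]
      exact fun j hj => slope hm (ha j) (hJ0 j hj)
    have hm0 : (m : ℂ) ≠ 0 := Nat.cast_ne_zero.2 hm.ne'
    have h1 : (fun u => u * ((m : ℂ)⁻¹ * ∑ j ∈ J,
        (ev2 A (t₀ + u ^ m) (a j u) / ev2 H (t₀ + u ^ m) (a j u)) * -deriv (a j) u *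
        ∏ i ∈ J.erase j, (z - a i u))) =ᶠ[𝓝[≠] 0]
        fun u => (t₀ + u ^ m - t₀) * (ev2 P0 (t₀ + u ^ m) z / R.eval (t₀ + u ^ m)) := by
      filter_upwards [hJ, Pr.inj, hall, hBu, hRu, hsl, ev_ne] with u h1 h2 h3 h4 h5 h7 h8
      have hc := card_J hF h1
      have h6 := lag_J h2 (r := evt (t₀ + u ^ m) P0) (J := J) (by
        rw [hc, ← degree_eq_natDegree hF.ne_zero]
        exact lt_of_le_of_lt degree_map_le hP0d) z
      change _ = _ * ((evt (t₀ + u ^ m) P0).eval z / _)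
      rw [h6, Finset.sum_div, Finset.mul_sum, Finset.mul_sum, Finset.mul_sum]
      refine Finset.sum_congr rfl fun j hj => ?_
      have k1 := ev2_dvd hdv (h3 j hj)
      rw [ev2_sub, ev2_mul, ev2_mul A, ev2_mul H, ev2_C] at k1
      have k2 : ev2 (derivative F) (t₀ + u ^ m) (a j u) = ∏ i ∈ J.erase j, (a j u - a i u) := by
        rw [ev2, evt_der, h1, der_J (x := fun j => a j u) hj]
      have k3 : ∏ i ∈ J.erase j, (a j u - a i u) ≠ 0 := by
        rw [Finset.prod_ne_zero_iff]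
        intro i hi
        rw [mem_erase] at hi
        exact sub_ne_zero.2 fun h => hi.1 (h2 h).symm
      have k4 := hH _ h4 _ (h3 j hj)
      have k6 := h7 j hj
      rw [k2] at k6
      change _ = _ * (ev2 P0 (t₀ + u ^ m) (a j u) / _ * _ / _)
      have k7 : (t₀ + u ^ m - t₀) = u * u ^ (m - 1) := by
        rw [add_sub_cancel_left, ← pow_succ', Nat.sub_add_cancel hm]
      rw [k7]
      set E := ∏ i ∈ J.erase j, (a j u - a i u) with hE
      set Y := ∏ i ∈ J.erase j, (z - a i u) with hY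
      have k5 : ev2 P0 (t₀ + u ^ m) (a j u) = R.eval (t₀ + u ^ m) *
          (ev2 A (t₀ + u ^ m) (a j u) * ev2 (dt F) (t₀ + u ^ m) (a j u)) /
            ev2 H (t₀ + u ^ m) (a j u) := by
        rw [eq_div_iff k4]
        linear_combination -k1
      rw [k5]
      have k8 : -deriv (a j) u = (m : ℂ) * u ^ (m - 1) * ev2 (dt F) (t₀ + u ^ m) (a j u) / E := by
        rw [eq_div_iff k3]
        linear_combination -k6
      rw [k8]
      field_simp
    have h2 : Tendsto (fun u => u * ((m : ℂ)⁻¹ * ∑ j ∈ J,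
        (ev2 A (t₀ + u ^ m) (a j u) / ev2 H (t₀ + u ^ m) (a j u)) * -deriv (a j) u *
        ∏ i ∈ J.erase j, (z - a i u))) (𝓝[≠] 0) (𝓝 (0 * ((m : ℂ)⁻¹ * ∑ j ∈ J,
          L j * -deriv (a j) 0 * ∏ i ∈ J.erase j, (z - a i 0)))) := by
      refine Tendsto.mul (tendsto_id.mono_left nhdsWithin_le_nhds) (Tendsto.const_mul _
        (tendsto_finsetSum _ fun j hj => ((hL j (hJ0 j hj)).mul ?_).mul
          (tendsto_finsetProd _ fun i _ => tendsto_const_nhds.sub ?_)))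
      · exact ((ha j).deriv.continuousAt.tendsto.mono_left nhdsWithin_le_nhds).neg
      · exact (ha i).continuousAt.tendsto.mono_left nhdsWithin_le_nhds
    rw [zero_mul] at h2
    exact Tendsto.congr' h1 h2
  refine ⟨P, dvd_of_ev hF (B := B ∪ R.roots.toFinset) fun t ht => ?_⟩
  rw [Finset.mem_union, not_or, Multiset.mem_toFinset, mem_roots hR] at ht
  refine ⟨hsep t ht.1, fun x hx => ?_⟩
  have k1 := ev2_dvd hdv hx
  rw [hP, ev2_sub, ev2_mul, ev2_mul, ev2_mul, ev2_mul, ev2_C] at k1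
  rw [ev2_sub, ev2_mul, ev2_mul]
  refine (mul_eq_zero.1 ?_).resolve_left ht.2
  linear_combination k1

end Pool.Agent.H941.QK
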