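import Pool.Agent.H941.QK.Jac

set_option autoImplicit false
set_option linter.unusedSectionVars false
set_option linter.unusedVariables false

/-! # Continuous functions on a curve with few bad points -/

namespace Pool.Agent.H941.QK

open Polynomial Finset Filter Topology Metric Pool.Agent.Helper748.TP Pool.Agent.H941.TF
  Pool.Agent.H941.SC Pool.Agent.H941.NC Pool.Agent.H941.ND Pool.Agent.H941.QH

/-- the polynomial is in the conductor at the point -/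
def CA (lam F : ℂ[X][X]) (t x : ℂ) : Prop :=
  ∀ P : ℂ[X][X], (∃ n : ℕ, TD (n : ℤ) P) →
    (∃ ℓ : ℂ, Tendsto (fun z : ℂ × ℂ => ev2 P z.1 z.2 / ev2 (derivative F) z.1 z.2)
      (𝓝[{z | ev2 F z.1 z.2 = 0 ∧ ev2 (derivative F) z.1 z.2 ≠ 0}] (t, x)) (𝓝 ℓ)) →
    ∃ c W, ev2 c t x ≠ 0 ∧ F ∣ c * (lam * P) - derivative F * W

theorem CA.use {lam F A H P : ℂ[X][X]} {t x : ℂ} (h : CA lam F t x) {N : ℕ} {Q : ℂ[X][X]}
    {B : Finset ℂ} (hFm : F.Monic) (hFs : ∀ t ∉ B, (evt t F).Separable) (hFQ : F ∣ Q)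
    (h0 : ev2 F t x = 0) {n : ℕ} (TP : TD (n : ℤ) P) (hP : F ∣ A * derivative F - H * P)
    (hPb : ∀ b, Br2 N Q F P (derivative F) b) :
    ∃ c W, ev2 c t x ≠ 0 ∧ F ∣ c * (lam * A) - H * W := by
  obtain ⟨c, W, hc, hcW⟩ := h P ⟨n, TP⟩ (tends hFm hFQ (hPb t) h0)
  refine ⟨c, W, hc, dvd_of_ev hFm (B := B) fun s hs => ⟨hFs s hs, fun y hy => ?_⟩⟩
  have k1 := ev2_dvd hP hy
  have k2 := ev2_dvd hcW hy
  have k3 : ev2 (derivative F) s y ≠ 0 := by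
    have := sep_der (hFs s hs) hy
    rwa [← evt_der] at this
  rw [ev2_sub, ev2_mul, ev2_mul H] at k1
  rw [ev2_sub, ev2_mul c, ev2_mul lam, ev2_mul (derivative F)] at k2
  rw [ev2_sub, ev2_mul c, ev2_mul lam, ev2_mul H]
  refine (mul_eq_zero.1 ?_).resolve_left k3
  linear_combination ev2 c s y * ev2 lam s y * k1 + ev2 H s y * k2

/-- **Continuous functions on a curve with few bad points.** -/
theorem start_local {N e : ℕ} {Q F A H : ℂ[X][X]} {B : Finset ℂ} (hFm : F.Monic)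
    (hFs : ∀ t ∉ B, (evt t F).Separable) (hFd : F.natDegree = e) (he : e ≠ 0) (hFQ : F ∣ Q)
    (hH : ∀ t ∉ B, ∀ x, ev2 F t x = 0 → ev2 H t x ≠ 0)
    (hpar : ∀ b, Br2 N Q F A H b) (G : Gr e F A H) (TF : TD (e : ℤ) F) {K : ℕ}
    {a : Fin K → ℂ[X]} (ha : ∀ i, (a i).natDegree ≤ 1) (haF : ∀ i, ¬ (X - C (a i)) ∣ F)
    (hτ : ∀ i, ∃ τ : Finset ℂ, K + 3 < τ.card ∧ ∀ t ∈ τ, ev2 F t ((a i).eval t) = 0)
    (hnode : ∀ t x, ev2 F t x = 0 → ev2 (dt F) t x = 0 → ev2 (derivative F) t x = 0 →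
      (ev2 (derivative (derivative F)) t x ≠ 0 ∧
        ev2 (dt (derivative F)) t x ^ 2 -
          ev2 (dt (dt F)) t x * ev2 (derivative (derivative F)) t x ≠ 0) ∨
      (∃ c W, ev2 c t x ≠ 0 ∧ F ∣ c * A - H * W) ∨ CA (∏ i, (X - C (a i))) F t x ∨
      ∃ c a0 a2 v, ev2 c t x ≠ 0 ∧ c * (∏ i, (X - C (a i))) = a0 * dt F + a2 * derivative F + v * F) :
    ∃ Z, TD 3 Z ∧ F ∣ A - H * Z := by
  classical
  obtain ⟨P, TP, hP, hPb⟩ := repr hFm hFs hFd he hFQ hH hpar G TF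
  obtain ⟨Pt, hPt⟩ := bdd_poly_t hFm (by rw [hFd]; exact he) hFQ hFs hH (fun b => by
    obtain ⟨m, a, L, hm, ha, Pr, hL, -⟩ := hpar b
    exact ⟨m, a, L, hm, ha, Pr, hL⟩)
  refine strip hFm hFs hFd hFQ hH hpar G ha haF hτ ?_
  refine QH.start (N := N) (Q := Q) hFm hFs (by rw [hFd]; exact he) hFQ hH
    (fun t x h0 h1 h2 => ?_) fun b => (hpar b).mul _
  rcases hnode t x h0 h1 h2 with h | ⟨c, W, hc, w, hw⟩ | h | ⟨c, a0, a2, v, hc, hcv⟩
  · exact Or.inl h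
  · right
    refine ⟨c, (∏ i, (X - C (a i))) * W, hc, (∏ i, (X - C (a i))) * w, ?_⟩
    linear_combination (∏ i, (X - C (a i))) * hw
  · right
    have TP' : TD ((e + 2 : ℕ) : ℤ) P := by
      push_cast
      exact TP
    exact h.use hFm hFs hFQ h0 TP' hP hPb
  · right
    obtain ⟨w1, hw1⟩ := hP
    obtain ⟨w2, hw2⟩ := hPt
    refine ⟨c, a0 * Pt + a2 * P, hc, v * A + a0 * w2 + a2 * w1, ?_⟩
    linear_combination A * hcv + a0 * hw2 + a2 * hw1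

end Pool.Agent.H941.QK
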