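import Pool.Agent.H941.QK.Class
import Pool.Agent.H941.SC.Curve

set_option autoImplicit false
set_option linter.unusedSectionVars false
set_option linter.unusedVariables false

/-! # The root `-3/d` -/

namespace Pool.Agent.H941.QK

open MvPolynomial Pool.Agent.Helper748.MC Pool.Agent.Helper748.TP Pool.Agent.H941.TF
  Pool.Agent.H941.SC Pool.Agent.W574.SM Pool.Agent.W574.CN Pool.Agent.W574.MO
  Pool.Agent.W574.HS Pool.Agent.W574.LM Pool.Agent.H628R4.TP

/-- **The root `-3/d` of the Bernstein-Sato polynomial.** -/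
theorem cubic_single {d : ℕ} {f : MvPolynomial (Fin 3) ℂ} (hf : f.IsHomogeneous d)
    (h : CubicChain f) (b : Polynomial ℂ) (hb : IsBFunction f b) : b.eval (-3 / d : ℂ) = 0 :=
  root_of_not_exact (fun _ : Unit => f) d (h.deg hf) (fun _ => hf) b (funEq_unit f b hb)
    (fun _ => 1) (by rw [lcomb_unit]; exact h.ne)
    (by rw [lcomb_unit]; exact not_exact hf h)

variable {ι : Type} [Fintype ι] [DecidableEq ι]

theorem cubic_ideal {d : ℕ} (f : ι → MvPolynomial (Fin 3) ℂ)
    (hf : ∀ j, (f j).IsHomogeneous d) (lam : ι → ℂ) (h : CubicChain (lcomb f lam))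
    (b : Polynomial ℂ) (hb : IsFunctionalEq f b) : b.eval (-3 / d : ℂ) = 0 :=
  root_of_not_exact f d (h.deg (lcomb_homog hf lam)) hf b hb lam h.ne
    (not_exact (lcomb_homog hf lam) h)

end Pool.Agent.H941.QK
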