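import Pool.Agent.H941.QH.Start

set_option autoImplicit false
set_option linter.unusedSectionVars false
set_option linter.unusedVariables false

/-! # Division by lines -/

namespace Pool.Agent.H941.QK

open Polynomial Finset Filter Topology Metric Pool.Agent.Helper748.TP Pool.Agent.H941.TF
  Pool.Agent.H941.SC Pool.Agent.H941.NC Pool.Agent.H941.ND Pool.Agent.H941.QH

/-- the growth of `A / H` at infinity on the curve `F = 0` -/
def Gr (e : ℕ) (F A H : ℂ[X][X]) : Prop :=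
  ∃ (X' : Fin e → ℂ → ℂ) (x0 : Fin e → ℂ), (∀ j, Tendsto (X' j) (𝓝[≠] 0) (𝓝 (x0 j))) ∧
    Function.Injective x0 ∧ ∀ j, (∀ᶠ u in 𝓝[≠] (0 : ℂ), ev2 F u⁻¹ (X' j u / u) = 0) ∧
    (∀ᶠ u in 𝓝[≠] (0 : ℂ), ev2 H u⁻¹ (X' j u / u) ≠ 0) ∧
    ∃ L, Tendsto (fun u => u ^ (3 : ℤ) * (ev2 A u⁻¹ (X' j u / u) / ev2 H u⁻¹ (X' j u / u)))
      (𝓝[≠] 0) (𝓝 L)

theorem growth {e : ℕ} {F A H : ℂ[X][X]} (hFm : F.Monic) (hFd : F.natDegree = e)
    (G : Gr e F A H) {lam : ℂ[X][X]} {K : ℕ} (hl : TD (K : ℤ) lam)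
    (h : ∃ W, F ∣ lam * A - H * W) : ∃ Z, TD (3 + (K : ℤ)) Z ∧ F ∣ lam * A - H * Z := by
  obtain ⟨X', x0, hX, hx0, hG⟩ := G
  obtain ⟨W, w, hw⟩ := h
  have hZF : F ∣ lam * A - H * (W %ₘ F) := by
    refine ⟨w + H * (W /ₘ F), ?_⟩
    have h3 := modByMonic_add_div W F
    linear_combination hw - H * h3
  have hZd : (W %ₘ F).degree < (e : WithBot ℕ) := by
    have := degree_modByMonic_lt W hFm
    rwa [degree_eq_natDegree hFm.ne_zero, hFd] at this
  refine ⟨W %ₘ F, TD_of_lim hX hx0 hZd fun j => ?_, hZF⟩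
  obtain ⟨h1, h2, L, hL⟩ := hG j
  obtain ⟨l, hl'⟩ := hl.lim (hX j)
  refine ⟨L * l, (hL.mul hl').congr' ?_⟩
  filter_upwards [h1, h2, ev_ne] with u k1 k2 k3
  have k4 := ev2_dvd hZF k1
  rw [ev2_sub, ev2_mul, ev2_mul H] at k4
  rw [zpow_add₀ k3]
  have k5 : ∀ a b l z p q : ℂ, b ≠ 0 → l * a - b * z = 0 → p * (a / b) * (q * l) = p * q * z := by
    intro a b l z p q hb h
    field_simp
    linear_combination p * q * h
  exact k5 _ _ _ _ _ _ k2 k4

theorem ev2_at (Z : ℂ[X][X]) (a : ℂ[X]) (t : ℂ) : ev2 Z t (a.eval t) = (Z.eval a).eval t := by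
  rw [ev2, evt, coe_mapRingHom]
  exact eval_map_apply (evalRingHom t) a

theorem deg_line {k : ℕ} {Z : ℂ[X][X]} (hZ : TD (k : ℤ) Z) {a : ℂ[X]} (ha : a.natDegree ≤ 1) :
    (Z.eval a).natDegree ≤ k := by
  rw [eval_eq_sum, Polynomial.sum]
  refine natDegree_sum_le_of_forall_le _ _ fun i _ => ?_
  by_cases hi : Z.coeff i = 0
  · rw [hi, zero_mul, natDegree_zero]
    exact Nat.zero_le _
  · have h1 : (Z.coeff i).natDegree + i ≤ k := by
      by_contra hcon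
      exact hi (leadingCoeff_eq_zero.1 (hZ i _ (by push_cast; omega)))
    refine natDegree_mul_le.trans ?_
    have h2 : (a ^ i).natDegree ≤ i * 1 := natDegree_pow_le.trans (Nat.mul_le_mul_left i ha)
    omega

theorem TD_line {a : ℂ[X]} (ha : a.natDegree ≤ 1) : TD (1 : ℤ) (X - C a : ℂ[X][X]) := by
  intro i j hij
  rcases i with _ | i
  · rw [coeff_sub, coeff_X_zero, coeff_C_zero, zero_sub, coeff_neg, coeff_eq_zero_of_natDegree_lt,
      neg_zero]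
    push_cast at hij
    omega
  · rw [coeff_sub, coeff_C_succ, sub_zero, coeff_X]
    split_ifs with h
    · rw [coeff_one, if_neg]
      intro h3
      push_cast at hij
      omega
    · rw [coeff_zero]

theorem TD_lines {K : ℕ} {a : Fin K → ℂ[X]} (ha : ∀ i, (a i).natDegree ≤ 1)
    (s : Finset (Fin K)) : TD (s.card : ℤ) (∏ i ∈ s, (X - C (a i)) : ℂ[X][X]) := by
  classical
  induction s using Finset.induction_on with
  | empty =>
    rw [Finset.prod_empty]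
    intro i j hij
    rw [coeff_one]
    split_ifs with h1
    · rw [coeff_one, if_neg (by push_cast at hij; omega)]
    · rw [coeff_zero]
  | insert i s hi ih =>
    rw [Finset.prod_insert hi, card_insert_of_notMem hi]
    have := (TD_line (ha i)).mul ih
    refine this.mono ?_
    push_cast
    omega

/-- the quotient has the limits `L` on the branches -/
def Br2 (N : ℕ) (Q F A H : ℂ[X][X]) (b : ℂ) : Prop :=
  ∃ (m : ℕ) (a : Fin N → ℂ → ℂ) (L : Fin N → ℂ), 0 < m ∧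
      (∀ j, AnalyticAt ℂ (a j) 0) ∧ Par N Q (fun u => b + u ^ m) a ∧
      (∀ j, (∀ᶠ u in 𝓝[≠] (0 : ℂ), ev2 F (b + u ^ m) (a j u) = 0) →
        Tendsto (fun u => ev2 A (b + u ^ m) (a j u) / ev2 H (b + u ^ m) (a j u))
          (𝓝[≠] 0) (𝓝 (L j))) ∧ ∀ j i, a j 0 = a i 0 → L j = L i

theorem Br2.mul {N : ℕ} {Q F A H : ℂ[X][X]} {b : ℂ} (h : Br2 N Q F A H b) (lam : ℂ[X][X]) :
    Br2 N Q F (lam * A) H b := by
  obtain ⟨m, a, L, hm, ha, P, hL, hLL⟩ := h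
  refine ⟨m, a, fun j => ev2 lam b (a j 0) * L j, hm, ha, P, fun j hj => ?_, fun j i hji => ?_⟩
  · refine ((tendP lam b hm (ha j)).mul (hL j hj)).congr' (Eventually.of_forall fun u => ?_)
    change _ = ev2 (lam * A) _ _ / _
    rw [ev2_mul, mul_div_assoc]
  · change ev2 lam b (a j 0) * L j = ev2 lam b (a i 0) * L i
    rw [hji, hLL j i hji]

theorem strip1 {N e : ℕ} {Q F A H : ℂ[X][X]} {B : Finset ℂ} (hFm : F.Monic)
    (hFs : ∀ t ∉ B, (evt t F).Separable) (hFd : F.natDegree = e) (hFQ : F ∣ Q)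
    (hH : ∀ t ∉ B, ∀ x, ev2 F t x = 0 → ev2 H t x ≠ 0)
    (hpar : ∀ b, Br2 N Q F A H b) (G : Gr e F A H) {K : ℕ} {lam : ℂ[X][X]} (hl : TD (K : ℤ) lam)
    {a : ℂ[X]} (ha : a.natDegree ≤ 1) (haF : ¬ (X - C a) ∣ F) {τ : Finset ℂ}
    (hτ : K + 4 < τ.card) (hτ0 : ∀ t ∈ τ, ev2 F t (a.eval t) = 0)
    (h : ∃ Z, TD (3 + ((K + 1 : ℕ) : ℤ)) Z ∧ F ∣ ((X - C a) * lam) * A - H * Z) :
    ∃ Z, TD (3 + (K : ℤ)) Z ∧ F ∣ lam * A - H * Z := by
  classical
  obtain ⟨Z, TZ, hZ⟩ := h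
  refine growth hFm hFd G hl ?_
  -- the zeros on the line
  have hz : ∀ t ∈ τ, (Z.eval a).eval t = 0 := by
    intro t ht
    rw [← ev2_at]
    obtain ⟨m, f, L, hm, hf, P, hL, -⟩ := hpar t
    have hT : AnalyticAt ℂ (fun u : ℂ => t + u ^ m) 0 := by fun_prop
    have hT0 : t + (0 : ℂ) ^ m = t := by rw [zero_pow hm.ne', add_zero]
    obtain ⟨j, hj0, hj⟩ := fam (Γ := F) P hT hf hFm hFQ (ξ := a.eval t)
      (by rw [hT0]; exact hτ0 t ht)
    have e1 := tendP Z t hm (hf j)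
    have e2 := (tendP ((X - C a) * lam) t hm (hf j)).mul (hL j hj)
    rw [hj0] at e1 e2
    have e3 : ev2 ((X - C a) * lam) t (a.eval t) = 0 := by
      rw [ev2_mul, ev2_sub, ev2_X, ev2_C, sub_self, zero_mul]
    rw [e3, zero_mul] at e2
    refine tendsto_nhds_unique e1 (e2.congr' ?_)
    filter_upwards [hj, ev_notin B t hm] with u k1 k2
    have k3 := hH _ k2 _ k1
    have k4 := ev2_dvd hZ k1
    rw [ev2_sub, ev2_mul _ A, ev2_mul H] at k4
    field_simp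
    linear_combination k4
  have hdg : (Z.eval a).natDegree ≤ 3 + (K + 1) := deg_line (by
    have : (3 + ((K + 1 : ℕ) : ℤ)) = ((3 + (K + 1) : ℕ) : ℤ) := by push_cast; ring
    rwa [this] at TZ) ha
  have h0 : Z.eval a = 0 := by
    refine eq_zero_of_natDegree_lt_card_of_eval_eq_zero' _ τ hz ?_
    omega
  obtain ⟨Z', hZ'⟩ := dvd_iff_isRoot.2 h0
  have hFa : F.eval a ≠ 0 := fun h => haF (dvd_iff_isRoot.2 h)
  refine ⟨Z', dvd_of_ev hFm (B := B ∪ (F.eval a).roots.toFinset) fun t ht => ?_⟩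
  rw [mem_union, not_or, Multiset.mem_toFinset, mem_roots hFa] at ht
  refine ⟨hFs t ht.1, fun x hx => ?_⟩
  have k1 := ev2_dvd hZ hx
  have k2 : x - a.eval t ≠ 0 := by
    intro h
    apply ht.2
    rw [IsRoot, ← ev2_at, ← sub_eq_zero.1 h]
    exact hx
  rw [hZ', ev2_sub, ev2_mul _ A, ev2_mul, ev2_mul H, ev2_mul, ev2_sub, ev2_X, ev2_C] at k1
  rw [ev2_sub, ev2_mul, ev2_mul H]
  refine (mul_eq_zero.1 ?_).resolve_left k2
  linear_combination k1

/-- **Division by lines.** -/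
theorem strip {N e : ℕ} {Q F A H : ℂ[X][X]} {B : Finset ℂ} (hFm : F.Monic)
    (hFs : ∀ t ∉ B, (evt t F).Separable) (hFd : F.natDegree = e) (hFQ : F ∣ Q)
    (hH : ∀ t ∉ B, ∀ x, ev2 F t x = 0 → ev2 H t x ≠ 0)
    (hpar : ∀ b, Br2 N Q F A H b) (G : Gr e F A H) {K : ℕ} {a : Fin K → ℂ[X]}
    (ha : ∀ i, (a i).natDegree ≤ 1) (haF : ∀ i, ¬ (X - C (a i)) ∣ F)
    (hτ : ∀ i, ∃ τ : Finset ℂ, K + 3 < τ.card ∧ ∀ t ∈ τ, ev2 F t ((a i).eval t) = 0)
    (h : ∃ W, F ∣ (∏ i, (X - C (a i))) * A - H * W) : ∃ Z, TD 3 Z ∧ F ∣ A - H * Z := by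
  classical
  have key : ∀ s : Finset (Fin K), (∃ Z, TD (3 + (s.card : ℤ)) Z ∧
      F ∣ (∏ i ∈ s, (X - C (a i))) * A - H * Z) → ∃ Z, TD 3 Z ∧ F ∣ A - H * Z := by
    intro s
    induction s using Finset.induction_on with
    | empty =>
      rintro ⟨Z, h1, h2⟩
      rw [Finset.prod_empty, one_mul] at h2
      exact ⟨Z, by simpa using h1, h2⟩
    | insert i s hi ih =>
      intro h1
      rw [Finset.prod_insert hi, card_insert_of_notMem hi] at h1
      obtain ⟨τ, h2, h3⟩ := hτ i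
      have h4 : s.card + 1 ≤ K := by
        have := card_le_univ (insert i s)
        rwa [card_insert_of_notMem hi, Fintype.card_fin] at this
      exact ih (strip1 hFm hFs hFd hFQ hH hpar G (TD_lines ha s) (ha i) (haF i) (τ := τ)
        (by omega) h3 h1)
  have h1 := growth hFm hFd G (TD_lines ha univ) h
  exact key univ h1

end Pool.Agent.H941.QK
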